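import Pool.Agent.Lib.MP_d0893a_co.KK.Flip

/-!
# Conditional expectation (problem MP_d0893a_co)

`ex_mul_cE` (key): `∑_x Q x f x (∑_{y ~ x} Q y h y) / mg x`; swap the sums: for `y ~ x` (agree on `J`)
`mg x = mg y`, `f x = f y`, so it is `∑_y Q y h y f y (∑_{x ~ y} Q x) / mg y = ∑_y Q y h y f y`
(terms with `Q y = 0` vanish, and `Q y ≠ 0` implies `mg y > 0`).
`cE_sq_le`: Cauchy-Schwarz. `ex_cE_sq_mono`: with `f = cE J h`, `f' = cE J' h`: `ex (f f') = ex (f h) =
ex (f^2)` (`ex_mul_cE` twice), so `0 ≤ ex ((f' - f)^2) = ex (f'^2) - ex (f^2)`.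
-/

open Finset

namespace Pool.Agent.Grid.KK

variable {n : ℕ}

private theorem ag_congr {J : Finset (Fin n)} {x y : Cube n} (h : ∀ j ∈ J, x j = y j)
    (z : Cube n) : (∀ j ∈ J, z j = x j) ↔ (∀ j ∈ J, z j = y j) :=
  ⟨fun hz j hj => (hz j hj).trans (h j hj), fun hz j hj => (hz j hj).trans (h j hj).symm⟩

theorem mg_congr (Q : Cube n → ℝ) {J : Finset (Fin n)} {x y : Cube n}
    (h : ∀ j ∈ J, x j = y j) : mg Q J x = mg Q J y := by
  unfold mg
  refine Finset.sum_congr rfl fun z _ => ?_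
  simp only [ag_congr h z]

theorem cE_congr (Q : Cube n → ℝ) {J : Finset (Fin n)} (f : Cube n → ℝ) {x y : Cube n}
    (h : ∀ j ∈ J, x j = y j) : cE Q J f x = cE Q J f y := by
  unfold cE
  rw [mg_congr Q h]
  congr 1
  refine Finset.sum_congr rfl fun z _ => ?_
  simp only [ag_congr h z]

theorem mg_nonneg {Q : Cube n → ℝ} (hQ : ∀ x, 0 ≤ Q x) (J : Finset (Fin n)) (x : Cube n) :
    0 ≤ mg Q J x := by
  unfold mg
  refine Finset.sum_nonneg fun z _ => ?_
  split_ifs
  · exact hQ z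
  · exact le_refl 0

theorem le_mg {Q : Cube n → ℝ} (hQ : ∀ x, 0 ≤ Q x) (J : Finset (Fin n)) (x : Cube n) :
    Q x ≤ mg Q J x := by
  unfold mg
  have h := Finset.single_le_sum
    (f := fun y : Cube n => if ∀ j ∈ J, y j = x j then Q y else 0) (s := Finset.univ)
    (fun z _ => by
      show (0 : ℝ) ≤ if ∀ j ∈ J, z j = x j then Q z else 0
      split_ifs
      · exact hQ z
      · exact le_refl 0) (Finset.mem_univ x)
  have h2 : (if ∀ j ∈ J, x j = x j then Q x else 0) = Q x := if_pos fun j _ => rfl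
  exact (le_of_eq h2.symm).trans h

theorem ex_mul_cE {Q : Cube n → ℝ} (hQ : ∀ x, 0 ≤ Q x) (J : Finset (Fin n))
    {f : Cube n → ℝ} (hf : ∀ x y, (∀ j ∈ J, x j = y j) → f x = f y) (h : Cube n → ℝ) :
    ex Q (fun x => f x * cE Q J h x) = ex Q (fun x => f x * h x) := by
  unfold ex
  have h1 : ∀ x, Q x * (f x * cE Q J h x) =
      ∑ y, if ∀ j ∈ J, y j = x j then Q y * h y * f y * (Q x / mg Q J y) else 0 := by
    intro x
    unfold cE
    have : Q x * (f x * ((∑ y, if ∀ j ∈ J, y j = x j then Q y * h y else 0) / mg Q J x)) =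
        ∑ y, (if ∀ j ∈ J, y j = x j then Q y * h y else 0) * (Q x * f x / mg Q J x) := by
      rw [← Finset.sum_mul]; ring
    rw [this]
    refine Finset.sum_congr rfl fun y _ => ?_
    by_cases hy : ∀ j ∈ J, y j = x j
    · rw [if_pos hy, if_pos hy, hf x y (fun j hj => (hy j hj).symm),
        mg_congr Q (fun j hj => (hy j hj).symm : ∀ j ∈ J, x j = y j)]
      ring
    · rw [if_neg hy, if_neg hy, zero_mul]
  calc ∑ x, Q x * (f x * cE Q J h x)
      = ∑ x, ∑ y, (if ∀ j ∈ J, y j = x j then Q y * h y * f y * (Q x / mg Q J y) else 0) :=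
        Finset.sum_congr rfl fun x _ => h1 x
    _ = ∑ y, ∑ x, (if ∀ j ∈ J, y j = x j then Q y * h y * f y * (Q x / mg Q J y) else 0) :=
        Finset.sum_comm
    _ = ∑ y, Q y * (f y * h y) := by
        refine Finset.sum_congr rfl fun y _ => ?_
        by_cases hy : Q y = 0
        · rw [hy]
          simp
        · have hpos : 0 < mg Q J y :=
            lt_of_lt_of_le (lt_of_le_of_ne (hQ y) (Ne.symm hy)) (le_mg hQ J y)
          have h2 : ∀ x, (if ∀ j ∈ J, y j = x j then Q y * h y * f y * (Q x / mg Q J y) else 0) =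
              (if ∀ j ∈ J, x j = y j then Q x else 0) * (Q y * h y * f y / mg Q J y) := by
            intro x
            by_cases hx : ∀ j ∈ J, y j = x j
            · rw [if_pos hx, if_pos (fun j hj => (hx j hj).symm)]
              ring
            · rw [if_neg hx, if_neg (fun hx' => hx fun j hj => (hx' j hj).symm), zero_mul]
          rw [Finset.sum_congr rfl fun x _ => h2 x, ← Finset.sum_mul]
          have h3 : (∑ x, if ∀ j ∈ J, x j = y j then Q x else 0) = mg Q J y := rfl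
          rw [h3]
          field_simp

theorem ex_cE {Q : Cube n → ℝ} (hQ : ∀ x, 0 ≤ Q x) (J : Finset (Fin n)) (h : Cube n → ℝ) :
    ex Q (cE Q J h) = ex Q h := by
  have := ex_mul_cE hQ J (f := fun _ => 1) (fun _ _ _ => rfl) h
  simpa using this

theorem ex_mono {Q : Cube n → ℝ} (hQ : ∀ x, 0 ≤ Q x) {f g : Cube n → ℝ}
    (h : ∀ x, Q x ≠ 0 → f x ≤ g x) : ex Q f ≤ ex Q g := by
  unfold ex
  refine Finset.sum_le_sum fun x _ => ?_
  by_cases hx : Q x = 0
  · rw [hx, zero_mul, zero_mul]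
  · exact mul_le_mul_of_nonneg_left (h x hx) (hQ x)

theorem cE_nonneg {Q : Cube n → ℝ} (hQ : ∀ x, 0 ≤ Q x) (J : Finset (Fin n)) {h : Cube n → ℝ}
    (hh : ∀ x, 0 ≤ h x) (x : Cube n) : 0 ≤ cE Q J h x := by
  unfold cE
  refine div_nonneg (Finset.sum_nonneg fun z _ => ?_) (mg_nonneg hQ J x)
  split_ifs
  · exact mul_nonneg (hQ z) (hh z)
  · exact le_refl 0

private theorem num_le {Q : Cube n → ℝ} (hQ : ∀ x, 0 ≤ Q x) (J : Finset (Fin n))
    {h g : Cube n → ℝ} (hh : ∀ x, h x ≤ g x) (x : Cube n) :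
    (∑ y, if ∀ j ∈ J, y j = x j then Q y * h y else 0) ≤
      ∑ y, if ∀ j ∈ J, y j = x j then Q y * g y else 0 := by
  refine Finset.sum_le_sum fun z _ => ?_
  split_ifs
  · exact mul_le_mul_of_nonneg_left (hh z) (hQ z)
  · exact le_refl 0

theorem cE_le_one {Q : Cube n → ℝ} (hQ : ∀ x, 0 ≤ Q x) (J : Finset (Fin n)) {h : Cube n → ℝ}
    (hh : ∀ x, h x ≤ 1) (x : Cube n) : cE Q J h x ≤ 1 := by
  unfold cE
  refine div_le_one_of_le₀ ?_ (mg_nonneg hQ J x)
  refine (num_le hQ J hh x).trans (le_of_eq ?_)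
  unfold mg
  refine Finset.sum_congr rfl fun z _ => ?_
  rw [mul_one]

theorem abs_cE_le {Q : Cube n → ℝ} (hQ : ∀ x, 0 ≤ Q x) (J : Finset (Fin n)) {h g : Cube n → ℝ}
    (hh : ∀ x, |h x| ≤ g x) (x : Cube n) : |cE Q J h x| ≤ cE Q J g x := by
  unfold cE
  rw [abs_div, abs_of_nonneg (mg_nonneg hQ J x)]
  refine div_le_div_of_nonneg_right ?_ (mg_nonneg hQ J x)
  refine (Finset.abs_sum_le_sum_abs _ _).trans ?_
  refine Finset.sum_le_sum fun z _ => ?_
  split_ifs
  · rw [abs_mul, abs_of_nonneg (hQ z)]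
    exact mul_le_mul_of_nonneg_left (hh z) (hQ z)
  · rw [abs_zero]

theorem cE_add (Q : Cube n → ℝ) (J : Finset (Fin n)) (h g : Cube n → ℝ) (x : Cube n) :
    cE Q J (fun y => h y + g y) x = cE Q J h x + cE Q J g x := by
  unfold cE
  rw [← add_div, ← Finset.sum_add_distrib]
  congr 1
  refine Finset.sum_congr rfl fun z _ => ?_
  split_ifs
  · ring
  · ring

theorem cE_sq_le {Q : Cube n → ℝ} (hQ : ∀ x, 0 ≤ Q x) (J : Finset (Fin n)) (h : Cube n → ℝ)
    (x : Cube n) : cE Q J h x ^ 2 ≤ cE Q J (fun y => h y ^ 2) x := by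
  unfold cE
  rcases (mg_nonneg hQ J x).eq_or_lt with h0 | h0
  · rw [← h0, div_zero, div_zero]
    norm_num
  · have hcs : (∑ y, if ∀ j ∈ J, y j = x j then Q y * h y else 0) ^ 2 ≤
        mg Q J x * ∑ y, if ∀ j ∈ J, y j = x j then Q y * h y ^ 2 else 0 := by
      unfold mg
      refine Finset.sum_sq_le_sum_mul_sum_of_sq_le_mul _ ?_ ?_ ?_
      · intro z _
        split_ifs
        · exact hQ z
        · exact le_refl 0
      · intro z _
        split_ifs
        · exact mul_nonneg (hQ z) (sq_nonneg _)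
        · exact le_refl 0
      · intro z _
        refine le_of_eq ?_
        split_ifs
        · ring
        · ring
    rw [div_pow, div_le_div_iff₀ (by positivity) h0]
    nlinarith [hcs, h0]

/-- Pythagoras -/
theorem ex_sub_sq {Q : Cube n → ℝ} (hQ : ∀ x, 0 ≤ Q x) {J J' : Finset (Fin n)} (hJ : J ⊆ J')
    (h : Cube n → ℝ) :
    ex Q (fun x => (cE Q J' h x - cE Q J h x) ^ 2) =
      ex Q (fun x => cE Q J' h x ^ 2) - ex Q (fun x => cE Q J h x ^ 2) := by
  have h1 : ex Q (fun x => cE Q J h x * cE Q J' h x) = ex Q (fun x => cE Q J h x * h x) :=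
    ex_mul_cE hQ J' (fun x y hxy => cE_congr Q h fun j hj => hxy j (hJ hj)) h
  have h2 : ex Q (fun x => cE Q J h x * cE Q J h x) = ex Q (fun x => cE Q J h x * h x) :=
    ex_mul_cE hQ J (fun x y hxy => cE_congr Q h hxy) h
  have h3 : ex Q (fun x => (cE Q J' h x - cE Q J h x) ^ 2) =
      ex Q (fun x => cE Q J' h x ^ 2) - 2 * ex Q (fun x => cE Q J h x * cE Q J' h x) +
        ex Q (fun x => cE Q J h x ^ 2) := by
    unfold ex
    rw [Finset.mul_sum, ← Finset.sum_sub_distrib, ← Finset.sum_add_distrib]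
    refine Finset.sum_congr rfl fun x _ => ?_
    ring
  have h4 : ex Q (fun x => cE Q J h x ^ 2) = ex Q (fun x => cE Q J h x * cE Q J h x) := by
    unfold ex
    refine Finset.sum_congr rfl fun x _ => ?_
    ring
  rw [h3, h1, ← h2, h4]
  ring

theorem ex_cE_sq_mono {Q : Cube n → ℝ} (hQ : ∀ x, 0 ≤ Q x) {J J' : Finset (Fin n)} (hJ : J ⊆ J')
    (h : Cube n → ℝ) :
    ex Q (fun x => cE Q J h x ^ 2) ≤ ex Q (fun x => cE Q J' h x ^ 2) := by
  have h1 := ex_sub_sq hQ hJ h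
  have h2 : 0 ≤ ex Q (fun x => (cE Q J' h x - cE Q J h x) ^ 2) := by
    unfold ex
    exact Finset.sum_nonneg fun x _ => mul_nonneg (hQ x) (sq_nonneg _)
  linarith

end Pool.Agent.Grid.KK
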