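import Pool.Agent.Lib.MP_d0893a_co.Ent.Ext

/-!
# Random revealing (problem MP_d0893a_co), abstract form

`U` is the set of free coordinates. Proof. Replace `d J`, `g i J` by `d (J ∩ U)`, `g i (J ∩ U)`
(so `U = univ`; increments in directions outside `U` vanish). Let `f = ext d`,
`e = ∑_{i∈U} ext (g i)` (`Ent.ext`: mean over a random set of density `t`). By `hasDerivAt_ext`
`(1-t) e' = ∑_J wt t J ∑_{i∈U} ∑_{j∉J} (g i (insert j J) - g i J) ≥ 0` and, since
`wt t (insert j J) (1-t) = t wt t J` for `j ∉ J`,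
`∑_J wt t J ∑_{j∈J} (g i J - g i (J.erase j)) = t/(1-t) ∑_J wt t J ∑_{j∉J} (g i (insert j J) - g i J)`.
So averaging `hkkl`: `Λ e(t) - ∑ c ≤ R t e'(t) ≤ R e'(t)` for `0 < t < 1`. Mean value theorem on `[1-v,1]`:
`∑ c ≥ e(1) - e(1-v) = v e'(ξ) ≥ v (Λ e(ξ) - ∑ c)/R ≥ v (Λ e(1-v) - ∑ c)/R`, so
`e(1-v) ≤ (R/v + 1) ∑ c / Λ`.
`(1-t) f'(t) = ∑_J wt t J ∑_{i∈U\J} (d (insert i J) - d J)`; since `g i J = g i (J.erase i)`,
`∑_{J∌i} wt t J g i J = (1-t) ext (g i) t`, so `f'(t) ≤ 2 e(t) + 2 ∑ σ` and `f'(t) ≤ ∑ c`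
(`sum_wt_compl`). Mean value theorem on `[0,1-v]` and `[1-v,1]`:
`d U = f(1) - f(0) ≤ 2 e(1-v) + 2 ∑ σ + v ∑ c` (`e` is monotone).
-/

open Finset

namespace Pool.Agent.Grid.KK

open Pool.Agent.Grid.Ent (wt ext)

private theorem calc_wt_insert {n : ℕ} (t : ℝ) {J : Finset (Fin n)} {i : Fin n} (hi : i ∉ J) :
    (1 - t) * wt t (insert i J) = t * wt t J := by
  have h4 : (insert i J).card ≤ n := by simpa using Finset.card_le_univ (insert i J)
  rw [Finset.card_insert_of_notMem hi] at h4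
  unfold Ent.wt
  rw [Finset.card_insert_of_notMem hi]
  have h5 : n - J.card = n - (J.card + 1) + 1 := by omega
  rw [h5, pow_succ, pow_succ]
  ring

private theorem calc_sum_mem {n : ℕ} (G : Finset (Fin n) → Fin n → ℝ) :
    ∑ J : Finset (Fin n), ∑ i ∈ J, G J i = ∑ J : Finset (Fin n), ∑ i ∈ Jᶜ, G (insert i J) i := by
  have h1 : ∑ J : Finset (Fin n), ∑ i ∈ J, G J i =
      ∑ i, ∑ J ∈ univ.filter (fun J : Finset (Fin n) => i ∈ J), G J i := by
    refine Finset.sum_comm' fun J i => ?_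
    simp
  have h2 : ∑ J : Finset (Fin n), ∑ i ∈ Jᶜ, G (insert i J) i =
      ∑ i, ∑ J ∈ univ.filter (fun J : Finset (Fin n) => i ∉ J), G (insert i J) i := by
    refine Finset.sum_comm' fun J i => ?_
    simp
  rw [h1, h2]
  refine Finset.sum_congr rfl fun i _ => ?_
  symm
  refine Finset.sum_bij' (fun J _ => insert i J) (fun J _ => J.erase i) ?_ ?_ ?_ ?_ ?_
  · intro J _
    simp
  · intro J _
    simp
  · intro J hJ
    exact Finset.erase_insert (Finset.mem_filter.1 hJ).2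
  · intro J hJ
    exact Finset.insert_erase (Finset.mem_filter.1 hJ).2
  · intro J _
    rfl

private theorem calc_split {n : ℕ} (h : Fin n → Finset (Fin n) → ℝ)
    (he : ∀ i J, h i (J.erase i) = h i J) (t : ℝ) :
    ∑ J : Finset (Fin n), wt t J * ∑ i ∈ Jᶜ, h i J = (1 - t) * ∑ i, ext (h i) t := by
  have hZ : ∑ i, ext (h i) t = ∑ J : Finset (Fin n), ∑ i, wt t J * h i J := by
    unfold Ent.ext
    exact Finset.sum_comm
  have hX : ∑ J : Finset (Fin n), wt t J * ∑ i ∈ Jᶜ, h i J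
      = ∑ J : Finset (Fin n), ∑ i ∈ Jᶜ, wt t J * h i J :=
    Finset.sum_congr rfl fun J _ => Finset.mul_sum _ _ _
  have hXY : ∑ J : Finset (Fin n), ∑ i, wt t J * h i J =
      ∑ J : Finset (Fin n), ∑ i ∈ J, wt t J * h i J
        + ∑ J : Finset (Fin n), ∑ i ∈ Jᶜ, wt t J * h i J := by
    rw [← Finset.sum_add_distrib]
    exact Finset.sum_congr rfl fun J _ => (Finset.sum_add_sum_compl J _).symm
  have hY : (1 - t) * ∑ J : Finset (Fin n), ∑ i ∈ J, wt t J * h i J
      = t * ∑ J : Finset (Fin n), ∑ i ∈ Jᶜ, wt t J * h i J := by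
    rw [calc_sum_mem (fun J i => wt t J * h i J), Finset.mul_sum, Finset.mul_sum]
    refine Finset.sum_congr rfl fun J _ => ?_
    rw [Finset.mul_sum, Finset.mul_sum]
    refine Finset.sum_congr rfl fun i hi => ?_
    have hi' : i ∉ J := Finset.mem_compl.1 hi
    have h1 : h i (insert i J) = h i J := by
      rw [← he i (insert i J), Finset.erase_insert hi']
    rw [h1, ← mul_assoc, calc_wt_insert t hi', mul_assoc]
  rw [hX, hZ, hXY]
  linear_combination -hY

private theorem calc_cont {n : ℕ} (F : Finset (Fin n) → ℝ) : Continuous (ext F) := by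
  unfold Ent.ext Ent.wt
  fun_prop

private theorem calc_zero {n : ℕ} (F : Finset (Fin n) → ℝ) : ext F 0 = F ∅ := by
  unfold Ent.ext Ent.wt
  rw [Finset.sum_eq_single ∅]
  · simp
  · intro J _ hJ
    rw [zero_pow (fun h => hJ (Finset.card_eq_zero.1 h)), zero_mul, zero_mul]
  · intro h
    exact absurd (Finset.mem_univ _) h

private theorem calc_one {n : ℕ} (F : Finset (Fin n) → ℝ) : ext F 1 = F univ := by
  unfold Ent.ext Ent.wt
  rw [Finset.sum_eq_single univ]
  · simp
  · intro J _ hJ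
    have h1 : J.card < n := by
      have := Finset.card_lt_univ_of_notMem (s := J) (x := (Finset.exists_of_ssubset
        (Finset.ssubset_univ_iff.2 hJ)).choose) (Finset.exists_of_ssubset
        (Finset.ssubset_univ_iff.2 hJ)).choose_spec.2
      simpa using this
    rw [sub_self, zero_pow (by omega), mul_zero, zero_mul]
  · intro h
    exact absurd (Finset.mem_univ _) h

private theorem calc_ext_mono {n : ℕ} {F G : Finset (Fin n) → ℝ} {t : ℝ} (h0 : 0 ≤ t) (h1 : t ≤ 1)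
    (h : ∀ J, F J ≤ G J) : ext F t ≤ ext G t := by
  unfold Ent.ext
  exact Finset.sum_le_sum fun J _ => mul_le_mul_of_nonneg_left (h J) (Ent.wt_nonneg h0 h1 J)

/-- abstract version with all coordinates -/
private theorem calc_core {n : ℕ} (d G : Finset (Fin n) → ℝ) {C S Λ R v : ℝ} (hΛ : 0 < Λ)
    (hR : 0 < R) (hv : 0 < v) (hv1 : v < 1) (hd0 : d ∅ = 0) (hS : 0 ≤ S)
    (hd1 : ∀ t : ℝ, 0 < t → t < 1 →
      ∑ J : Finset (Fin n), wt t J * ∑ i ∈ Jᶜ, (d (insert i J) - d J) ≤ (1 - t) * C)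
    (hd2 : ∀ t : ℝ, 0 < t → t < 1 →
      ∑ J : Finset (Fin n), wt t J * ∑ i ∈ Jᶜ, (d (insert i J) - d J)
        ≤ (1 - t) * (2 * ext G t + 2 * S))
    (hG0 : ∀ J, 0 ≤ G J) (hGm : ∀ J J', J ⊆ J' → G J ≤ G J') (hG1 : G univ ≤ C)
    (hk : ∀ J, Λ * G J - C ≤ R * ∑ j ∈ J, (G J - G (J.erase j))) :
    d univ ≤ (2 * (R / v + 1) / Λ + v) * C + 2 * S := by
  -- derivative of `e`
  set E' : ℝ → ℝ := fun t => (∑ J : Finset (Fin n), wt t J * ∑ i ∈ Jᶜ, (G (insert i J) - G J))
    / (1 - t) with hE'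
  set f' : ℝ → ℝ := fun t => (∑ J : Finset (Fin n), wt t J * ∑ i ∈ Jᶜ, (d (insert i J) - d J))
    / (1 - t) with hf'
  have heder : ∀ t : ℝ, t < 1 → HasDerivAt (ext G) (E' t) t := fun t ht =>
    Ent.hasDerivAt_ext G ht.ne
  have hfder : ∀ t : ℝ, t < 1 → HasDerivAt (ext d) (f' t) t := fun t ht =>
    Ent.hasDerivAt_ext d ht.ne
  have hE'0 : ∀ t : ℝ, 0 < t → t < 1 → 0 ≤ E' t := by
    intro t h0 h1
    refine div_nonneg (Finset.sum_nonneg fun J _ => mul_nonneg (Ent.wt_nonneg h0.le h1.le J)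
      (Finset.sum_nonneg fun i _ => ?_)) (by linarith)
    exact sub_nonneg.2 (hGm _ _ (Finset.subset_insert _ _))
  have hC : 0 ≤ C := (hG0 univ).trans hG1
  have he0 : ∀ t : ℝ, 0 ≤ t → t ≤ 1 → 0 ≤ ext G t := by
    intro t h0 h1
    exact Finset.sum_nonneg fun J _ => mul_nonneg (Ent.wt_nonneg h0 h1 J) (hG0 J)
  -- monotonicity of `e`
  have hmono : MonotoneOn (ext G) (Set.Icc 0 1) := by
    refine monotoneOn_of_deriv_nonneg (convex_Icc 0 1) (calc_cont G).continuousOn ?_ ?_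
    · intro t ht
      rw [interior_Icc] at ht
      exact (heder t ht.2).differentiableAt.differentiableWithinAt
    · intro t ht
      rw [interior_Icc] at ht
      rw [(heder t ht.2).deriv]
      exact hE'0 t ht.1 ht.2
  -- the averaged inequality
  have hkk : ∀ t : ℝ, 0 < t → t < 1 → Λ * ext G t - C ≤ R * E' t := by
    intro t h0 h1
    have h2 : Λ * ext G t - C = ∑ J : Finset (Fin n), wt t J * (Λ * G J - C) := by
      have h3 : ∑ J : Finset (Fin n), wt t J * (Λ * G J - C)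
          = Λ * ∑ J : Finset (Fin n), wt t J * G J - (∑ J : Finset (Fin n), wt t J) * C := by
        rw [Finset.mul_sum, Finset.sum_mul, ← Finset.sum_sub_distrib]
        exact Finset.sum_congr rfl fun J _ => by ring
      rw [h3, Ent.sum_wt, one_mul]
      rfl
    have h4 : ∑ J : Finset (Fin n), wt t J * (Λ * G J - C)
        ≤ ∑ J : Finset (Fin n), wt t J * (R * ∑ j ∈ J, (G J - G (J.erase j))) :=
      Finset.sum_le_sum fun J _ => mul_le_mul_of_nonneg_left (hk J) (Ent.wt_nonneg h0.le h1.le J)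
    have h5 : ∑ J : Finset (Fin n), wt t J * (R * ∑ j ∈ J, (G J - G (J.erase j)))
        = R * ∑ J : Finset (Fin n), ∑ j ∈ J, wt t J * (G J - G (J.erase j)) := by
      rw [Finset.mul_sum]
      refine Finset.sum_congr rfl fun J _ => ?_
      rw [← Finset.mul_sum]
      ring
    have h6 : (1 - t) * ∑ J : Finset (Fin n), ∑ j ∈ J, wt t J * (G J - G (J.erase j))
        = t * ((1 - t) * E' t) := by
      have h1t : (1 - t) ≠ 0 := by
        have : 0 < 1 - t := by linarith
        exact this.ne'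
      have h7 : (1 - t) * E' t
          = ∑ J : Finset (Fin n), ∑ i ∈ Jᶜ, wt t J * (G (insert i J) - G J) := by
        rw [hE']
        simp only
        rw [mul_div_cancel₀ _ h1t]
        exact Finset.sum_congr rfl fun J _ => Finset.mul_sum _ _ _
      rw [h7, calc_sum_mem (fun J j => wt t J * (G J - G (J.erase j))), Finset.mul_sum,
        Finset.mul_sum]
      refine Finset.sum_congr rfl fun J _ => ?_
      rw [Finset.mul_sum, Finset.mul_sum]
      refine Finset.sum_congr rfl fun i hi => ?_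
      have hi' : i ∉ J := Finset.mem_compl.1 hi
      rw [Finset.erase_insert hi', ← mul_assoc, calc_wt_insert t hi', mul_assoc]
    have h8 : ∑ J : Finset (Fin n), ∑ j ∈ J, wt t J * (G J - G (J.erase j)) = t * E' t := by
      have h1t : (1 - t) ≠ 0 := by
        have : 0 < 1 - t := by linarith
        exact this.ne'
      have := mul_left_cancel₀ h1t (h6.trans (by ring : t * ((1 - t) * E' t)
        = (1 - t) * (t * E' t)))
      exact this
    have h9 : t * E' t ≤ E' t := by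
      have := hE'0 t h0 h1
      nlinarith
    calc Λ * ext G t - C ≤ R * (t * E' t) := by
          rw [h2, ← h8, ← h5]
          exact h4
      _ ≤ R * E' t := mul_le_mul_of_nonneg_left h9 hR.le
  -- bound for `e (1 - v)`
  have hev : ext G (1 - v) ≤ (R / v + 1) * C / Λ := by
    obtain ⟨ξ, hξ, hξe⟩ := exists_hasDerivAt_eq_slope (ext G) E' (a := 1 - v) (b := 1)
      (by linarith) (calc_cont G).continuousOn (fun t ht => heder t ht.2)
    have h1 := hkk ξ (by linarith [hξ.1]) hξ.2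
    have h2 : ext G (1 - v) ≤ ext G ξ :=
      hmono ⟨by linarith, by linarith⟩ ⟨by linarith [hξ.1], hξ.2.le⟩ hξ.1.le
    have h3 : E' ξ ≤ C / v := by
      rw [hξe]
      have h4 : (1 : ℝ) - (1 - v) = v := by ring
      rw [h4]
      refine div_le_div_of_nonneg_right ?_ hv.le
      rw [calc_one]
      have := he0 (1 - v) (by linarith) (by linarith)
      linarith
    rw [le_div_iff₀ hΛ]
    have h5 : R * E' ξ ≤ R * (C / v) := mul_le_mul_of_nonneg_left h3 hR.le
    have h6 : Λ * ext G (1 - v) ≤ Λ * ext G ξ := mul_le_mul_of_nonneg_left h2 hΛ.le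
    have h7 : R * (C / v) = R / v * C := by ring
    rw [h7] at h5
    linarith
  -- the two pieces of `f`
  have hf1 : ext d 1 - ext d (1 - v) ≤ v * C := by
    obtain ⟨ξ, hξ, hξe⟩ := exists_hasDerivAt_eq_slope (ext d) f' (a := 1 - v) (b := 1)
      (by linarith) (calc_cont d).continuousOn (fun t ht => hfder t ht.2)
    have h0 : 0 < ξ := by linarith [hξ.1]
    have h1t : 0 < 1 - ξ := by linarith [hξ.2]
    have h2 : f' ξ ≤ C := by
      rw [hf']
      simp only
      rw [div_le_iff₀ h1t, mul_comm C]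
      exact hd1 ξ h0 hξ.2
    rw [hξe] at h2
    have h4 : (1 : ℝ) - (1 - v) = v := by ring
    rw [h4, div_le_iff₀ hv] at h2
    linarith
  have hf2 : ext d (1 - v) - ext d 0 ≤ 2 * ext G (1 - v) + 2 * S := by
    obtain ⟨ξ, hξ, hξe⟩ := exists_hasDerivAt_eq_slope (ext d) f' (a := 0) (b := 1 - v)
      (by linarith) (calc_cont d).continuousOn (fun t ht => hfder t (by linarith [ht.2]))
    have h0 : 0 < ξ := hξ.1
    have h1 : ξ < 1 := by linarith [hξ.2]
    have h1t : 0 < 1 - ξ := by linarith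
    have h2 : f' ξ ≤ 2 * ext G ξ + 2 * S := by
      rw [hf']
      simp only
      rw [div_le_iff₀ h1t, mul_comm (2 * ext G ξ + 2 * S)]
      exact hd2 ξ h0 h1
    have h3 : ext G ξ ≤ ext G (1 - v) :=
      hmono ⟨h0.le, h1.le⟩ ⟨by linarith, by linarith⟩ hξ.2.le
    have h4 : f' ξ ≤ 2 * ext G (1 - v) + 2 * S := by linarith
    rw [hξe, sub_zero, div_le_iff₀ (by linarith)] at h4
    refine h4.trans ?_
    have h5 : 0 ≤ 2 * ext G (1 - v) + 2 * S := by
      have := he0 (1 - v) (by linarith) (by linarith)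
      linarith
    nlinarith
  rw [calc_zero, hd0] at hf2
  rw [calc_one] at hf1
  have h9 : 2 * ((R / v + 1) * C / Λ) = 2 * (R / v + 1) / Λ * C := by ring
  have h10 : (2 * (R / v + 1) / Λ + v) * C = 2 * (R / v + 1) / Λ * C + v * C := by ring
  rw [h10, ← h9]
  linarith

private theorem calc_ite {n : ℕ} (U : Finset (Fin n)) (b : Fin n → ℝ) :
    ∑ i, (if i ∈ U then b i else 0) = ∑ i ∈ U, b i := by
  rw [Finset.sum_ite_mem, Finset.univ_inter]

theorem calc_final {n : ℕ} (U : Finset (Fin n)) (d : Finset (Fin n) → ℝ)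
    (g : Fin n → Finset (Fin n) → ℝ) (c σ : Fin n → ℝ) {Λ R v : ℝ} (hΛ : 0 < Λ) (hR : 0 < R)
    (hv : 0 < v) (hv1 : v < 1) (hd0 : d ∅ = 0)
    (hd1 : ∀ i ∈ U, ∀ J ⊆ U, i ∉ J → d (insert i J) - d J ≤ c i)
    (hd2 : ∀ i ∈ U, ∀ J ⊆ U, i ∉ J → d (insert i J) - d J ≤ 2 * g i J + 2 * σ i)
    (hc : ∀ i ∈ U, 0 ≤ c i) (hσ : ∀ i ∈ U, 0 ≤ σ i) (hg0 : ∀ i ∈ U, ∀ J ⊆ U, 0 ≤ g i J)
    (hgm : ∀ i ∈ U, ∀ J ⊆ U, ∀ J' ⊆ U, J ⊆ J' → g i J ≤ g i J')
    (hgc : ∀ i ∈ U, ∀ J ⊆ U, g i J ≤ c i)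
    (hge : ∀ i ∈ U, ∀ J ⊆ U, g i (J.erase i) = g i J)
    (hkkl : ∀ i ∈ U, ∀ J ⊆ U, Λ * g i J - c i ≤ R * ∑ j ∈ J, (g i J - g i (J.erase j))) :
    d U ≤ (2 * (R / v + 1) / Λ + v) * ∑ i ∈ U, c i + 2 * ∑ i ∈ U, σ i := by
  classical
  set C : ℝ := ∑ i ∈ U, c i with hCdef
  set S : ℝ := ∑ i ∈ U, σ i with hSdef
  -- extension by zero and by intersection with `U`
  let g' : Fin n → Finset (Fin n) → ℝ := fun i J => if i ∈ U then g i (J ∩ U) else 0
  let c' : Fin n → ℝ := fun i => if i ∈ U then c i else 0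
  let σ' : Fin n → ℝ := fun i => if i ∈ U then σ i else 0
  have hC' : ∑ i, c' i = C := by
    rw [hCdef]
    exact calc_ite U c
  have hS' : ∑ i, σ' i = S := by
    rw [hSdef]
    exact calc_ite U σ
  have hins : ∀ (i : Fin n) (J : Finset (Fin n)), i ∈ U → insert i J ∩ U = insert i (J ∩ U) :=
    fun i J hi => Finset.insert_inter_of_mem hi
  have hins' : ∀ (i : Fin n) (J : Finset (Fin n)), i ∉ U → insert i J ∩ U = J ∩ U :=
    fun i J hi => Finset.insert_inter_of_notMem hi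
  have hg'e : ∀ i J, g' i (J.erase i) = g' i J := by
    intro i J
    by_cases hi : i ∈ U
    · simp only [g', if_pos hi]
      rw [Finset.erase_inter, hge i hi _ Finset.inter_subset_right]
    · simp only [g', if_neg hi]
  have key := calc_core (n := n) (fun J => d (J ∩ U)) (fun J => ∑ i ∈ U, g i (J ∩ U))
    (C := C) (S := S) hΛ hR hv hv1 (by simpa using hd0) (Finset.sum_nonneg hσ) ?_ ?_ ?_ ?_ ?_ ?_
  · simpa using key
  · intro t h0 h1
    rw [← hC', ← Ent.sum_wt_compl c' t]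
    refine Finset.sum_le_sum fun J _ => mul_le_mul_of_nonneg_left (Finset.sum_le_sum
      fun i hi => ?_) (Ent.wt_nonneg h0.le h1.le J)
    have hiJ : i ∉ J := Finset.mem_compl.1 hi
    by_cases hiU : i ∈ U
    · simp only [c', if_pos hiU]
      rw [hins i J hiU]
      exact hd1 i hiU _ Finset.inter_subset_right fun h => hiJ (Finset.mem_inter.1 h).1
    · simp only [c', if_neg hiU]
      rw [hins' i J hiU, sub_self]
  · intro t h0 h1
    have e1 : ext (fun J => ∑ i ∈ U, g i (J ∩ U)) t = ∑ i, ext (g' i) t := by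
      unfold Ent.ext
      rw [Finset.sum_comm]
      refine Finset.sum_congr rfl fun J _ => ?_
      rw [← Finset.mul_sum]
      congr 1
      exact (calc_ite U (fun i => g i (J ∩ U))).symm
    have e2 : (1 - t) * (2 * ext (fun J => ∑ i ∈ U, g i (J ∩ U)) t + 2 * S)
        = ∑ J : Finset (Fin n), wt t J * ∑ i ∈ Jᶜ, (2 * g' i J + 2 * σ' i) := by
      have e3 : ∑ J : Finset (Fin n), wt t J * ∑ i ∈ Jᶜ, (2 * g' i J + 2 * σ' i)
          = 2 * (∑ J : Finset (Fin n), wt t J * ∑ i ∈ Jᶜ, g' i J)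
            + 2 * (∑ J : Finset (Fin n), wt t J * ∑ i ∈ Jᶜ, σ' i) := by
        rw [Finset.mul_sum, Finset.mul_sum, ← Finset.sum_add_distrib]
        refine Finset.sum_congr rfl fun J _ => ?_
        rw [Finset.sum_add_distrib, ← Finset.mul_sum, ← Finset.mul_sum]
        ring
      rw [e3, calc_split g' hg'e t, Ent.sum_wt_compl σ' t, hS', e1]
      ring
    rw [e2]
    refine Finset.sum_le_sum fun J _ => mul_le_mul_of_nonneg_left (Finset.sum_le_sum
      fun i hi => ?_) (Ent.wt_nonneg h0.le h1.le J)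
    have hiJ : i ∉ J := Finset.mem_compl.1 hi
    by_cases hiU : i ∈ U
    · simp only [g', σ', if_pos hiU]
      rw [hins i J hiU]
      exact hd2 i hiU _ Finset.inter_subset_right fun h => hiJ (Finset.mem_inter.1 h).1
    · simp only [g', σ', if_neg hiU]
      rw [hins' i J hiU, sub_self]
      simp
  · intro J
    exact Finset.sum_nonneg fun i hi => hg0 i hi _ Finset.inter_subset_right
  · intro J J' hJ
    exact Finset.sum_le_sum fun i hi => hgm i hi _ Finset.inter_subset_right _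
      Finset.inter_subset_right (Finset.inter_subset_inter_right hJ)
  · exact Finset.sum_le_sum fun i hi => hgc i hi _ Finset.inter_subset_right
  · intro J
    have e1 : Λ * ∑ i ∈ U, g i (J ∩ U) - C = ∑ i ∈ U, (Λ * g i (J ∩ U) - c i) := by
      rw [Finset.sum_sub_distrib, Finset.mul_sum]
    have e2 : R * ∑ j ∈ J, (∑ i ∈ U, g i (J ∩ U) - ∑ i ∈ U, g i (J.erase j ∩ U))
        = ∑ i ∈ U, R * ∑ j ∈ J ∩ U, (g i (J ∩ U) - g i ((J ∩ U).erase j)) := by
      rw [← Finset.mul_sum, Finset.sum_comm]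
      congr 1
      have e3 : ∑ j ∈ J ∩ U, ∑ i ∈ U, (g i (J ∩ U) - g i ((J ∩ U).erase j))
          = ∑ j ∈ J ∩ U, (∑ i ∈ U, g i (J ∩ U) - ∑ i ∈ U, g i (J.erase j ∩ U)) := by
        refine Finset.sum_congr rfl fun j _ => ?_
        rw [Finset.sum_sub_distrib, Finset.erase_inter]
      rw [e3]
      symm
      refine Finset.sum_subset Finset.inter_subset_left fun j hj hj' => ?_
      have hjU : j ∉ U := fun h => hj' (Finset.mem_inter.2 ⟨hj, h⟩)
      have e4 : J.erase j ∩ U = J ∩ U := by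
        rw [Finset.erase_inter, Finset.erase_eq_of_notMem hj']
      rw [e4, sub_self]
    rw [e1, e2]
    exact Finset.sum_le_sum fun i hi => hkkl i hi _ Finset.inter_subset_right

end Pool.Agent.Grid.KK
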