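import Pool.Agent.Lib.MP_d0893a_co.Ent.Defs

/-!
# The density increment theorem in the cube (problem MP_d0893a_co): definitions

`A ⊆ {0,1}^n`. A piece is a weight `w ≥ 0` supported in `A` and in a subcube that fixes the
coordinates in `T`. Its cost is the sum over the edges in the free directions of
`kap a b = min (a + b) (B (a-b)^2/(a+b))`.
-/

open Finset

namespace Pool.Agent.Grid.KK

/-- the discrete cube -/
abbrev Cube (n : ℕ) := Fin n → Fin 2

variable {n : ℕ}

/-- flip the coordinate `j` -/
def fl (x : Cube n) (j : Fin n) : Cube n := Function.update x j (x j + 1)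

/-- the sign of a coordinate -/
def sg (x : Cube n) (j : Fin n) : ℝ := if x j = 0 then 1 else -1

/-- total mass -/
def mass (w : Cube n → ℝ) : ℝ := ∑ x, w x

/-- cost of an edge with weights `a`, `b` -/
noncomputable def kap (B a b : ℝ) : ℝ := min (a + b) (B * (a - b) ^ 2 / (a + b))

/-- cost of the edges in direction `j` (every edge occurs twice in the sum) -/
noncomputable def costj (B : ℝ) (w : Cube n → ℝ) (j : Fin n) : ℝ :=
  (∑ x, kap B (w x) (w (fl x j))) / 2

/-- cost of the edges in the free directions -/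
noncomputable def cost (B : ℝ) (T : Finset (Fin n)) (w : Cube n → ℝ) : ℝ :=
  ∑ j ∈ Tᶜ, costj B w j

/-- mass times relative entropy with respect to the uniform law of the subcube -/
noncomputable def rent (T : Finset (Fin n)) (w : Cube n → ℝ) : ℝ :=
  ∑ x, w x * Real.log (w x) - mass w * Real.log (mass w) + mass w * (Tᶜ.card * Real.log 2)

/-- the functional to be minimised -/
noncomputable def F (B p : ℝ) (T : Finset (Fin n)) (w : Cube n → ℝ) : ℝ :=
  cost B T w - rent T w / 2 + p * T.card * mass w

/-- `w` is a piece: nonnegative, supported in `A` and in a subcube that fixes `T` -/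
structure Adm (A : Finset (Cube n)) (T : Finset (Fin n)) (w : Cube n → ℝ) : Prop where
  nonneg : ∀ x, 0 ≤ w x
  supp : ∀ x, w x ≠ 0 → x ∈ A
  const : ∀ x y, w x ≠ 0 → w y ≠ 0 → ∀ j ∈ T, x j = y j

/-- `(T, Q)` minimises `F` among the probability pieces (homogeneous form) -/
structure IsMin (B p : ℝ) (A : Finset (Cube n)) (T : Finset (Fin n)) (Q : Cube n → ℝ) : Prop where
  adm : Adm A T Q
  mass_one : mass Q = 1
  min : ∀ T' w, Adm A T' w → F B p T Q * mass w ≤ F B p T' w

/-- expectation -/
def ex (Q : Cube n → ℝ) (h : Cube n → ℝ) : ℝ := ∑ x, Q x * h x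

/-- marginal: the mass of the points that agree with `x` on `J` -/
def mg (Q : Cube n → ℝ) (J : Finset (Fin n)) (x : Cube n) : ℝ :=
  ∑ y, if ∀ j ∈ J, y j = x j then Q y else 0

/-- conditional expectation given the coordinates in `J` -/
noncomputable def cE (Q : Cube n → ℝ) (J : Finset (Fin n)) (h : Cube n → ℝ) (x : Cube n) : ℝ :=
  (∑ y, if ∀ j ∈ J, y j = x j then Q y * h y else 0) / mg Q J x

/-- relative entropy of the marginal on `J` with respect to the uniform law -/
noncomputable def DD (Q : Cube n → ℝ) (J : Finset (Fin n)) : ℝ :=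
  ex Q (fun x => Real.log (mg Q J x)) + J.card * Real.log 2

/-- relative difference of the weights along an edge -/
noncomputable def ss (Q : Cube n → ℝ) (j : Fin n) (x : Cube n) : ℝ :=
  (Q x - Q (fl x j)) / (Q x + Q (fl x j))

/-- indicator of the hard edges -/
noncomputable def hard (B : ℝ) (Q : Cube n → ℝ) (j : Fin n) (x : Cube n) : ℝ :=
  if (Q x + Q (fl x j)) ^ 2 ≤ B * (Q x - Q (fl x j)) ^ 2 then 1 else 0

/-- second moment of the conditional probability that direction `i` is hard, given `J \ {i}` -/
noncomputable def gg (B : ℝ) (Q : Cube n → ℝ) (i : Fin n) (J : Finset (Fin n)) : ℝ :=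
  ex Q (fun x => cE Q (J.erase i) (hard B Q i) x ^ 2)

/-- number of pairs `(x, j)` with `x ∈ A` and `x^j ∉ A` -/
def sens (A : Finset (Cube n)) : ℝ := ∑ j, ((A.filter fun x => fl x j ∉ A).card : ℝ)

end Pool.Agent.Grid.KK
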