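import Mathlib
import Pool.Agent.Lib.MP_d0893a_co.KK.Defs

/-!
# Splitting an edge (problem MP_d0893a_co)

`g = G^2/2`, `h = H^2/2` are the two values of the splitting function at the ends of the edge.
Proof of `kap_split`. If the edge is hard, i.e. `(a+b)^2 ≤ B (a-b)^2`, then `kap B a b = a + b`, and
`kap B a' b' ≤ a' + b'` always. Otherwise `B (a-b)^2 < (a+b)^2`, so `a + b > 0`,
`kap B a b = B (a-b)^2/(a+b)`, and (as `B ≥ 4`) `|a-b| < (a+b)/2`, so `q = a/(a+b) ∈ (1/4, 3/4)`.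
`kap B a' b' ≤ B (a'-b')^2/(a'+b')`. Put `m = q g + (1-q) h` (`0 ≤ m ≤ 1/2`). If `m = 0` then
`g = h = 0` and the claim is trivial. Otherwise the identity
`(g a - h b)^2/(g a + h b) + ((1-g) a - (1-h) b)^2/((1-g) a + (1-h) b) - (a-b)^2/(a+b)
  = 4 (a+b) q^2 (1-q)^2 (g-h)^2 / (m (1-m))`
(use `(a-b)^2/(a+b) = (a+b) - 4ab/(a+b)`), and `4 q^2 (1-q)^2 ≤ 1/4`,
`(g-h)^2 = (G-H)^2 (G+H)^2/4`, `m ≥ (g+h)/4 ≥ (G+H)^2/16`, `1 - m ≥ 1/2`.
-/

namespace Pool.Agent.Grid.KK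

private theorem edge_soft {B a b G H : ℝ} (hB : 4 ≤ B) (ha : 0 ≤ a) (hb : 0 ≤ b) (hG : 0 ≤ G)
    (hG1 : G ≤ 1) (hH : 0 ≤ H) (hH1 : H ≤ 1) (hs : B * (a - b) ^ 2 < (a + b) ^ 2) :
    (G ^ 2 / 2 * a - H ^ 2 / 2 * b) ^ 2 / (G ^ 2 / 2 * a + H ^ 2 / 2 * b) +
      ((1 - G ^ 2 / 2) * a - (1 - H ^ 2 / 2) * b) ^ 2 /
        ((1 - G ^ 2 / 2) * a + (1 - H ^ 2 / 2) * b) ≤
      (a - b) ^ 2 / (a + b) + 2 * ((a + b) * (G - H) ^ 2) := by
  set s := a + b with hsdef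
  set u := G ^ 2 / 2 * a + H ^ 2 / 2 * b with hu
  set v := (1 - G ^ 2 / 2) * a + (1 - H ^ 2 / 2) * b with hv
  have hG2 : G ^ 2 ≤ 1 := pow_le_one₀ hG hG1
  have hH2 : H ^ 2 ≤ 1 := pow_le_one₀ hH hH1
  have hs0 : 0 < s := by
    rcases (add_nonneg ha hb).eq_or_lt with h | h
    · exfalso
      rw [hsdef, ← h] at hs
      have : 0 ≤ B * (a - b) ^ 2 := by positivity
      linarith
    · exact h
  have h4 : 4 * (a - b) ^ 2 < s ^ 2 := by
    have : 4 * (a - b) ^ 2 ≤ B * (a - b) ^ 2 := mul_le_mul_of_nonneg_right hB (sq_nonneg _)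
    linarith
  have hab : 2 * |a - b| < s := by
    have h5 : (2 * |a - b|) ^ 2 < s ^ 2 := by
      rw [mul_pow, sq_abs]; linarith
    exact lt_of_pow_lt_pow_left₀ 2 hs0.le h5
  have ha4 : s / 4 < a := by
    have := neg_abs_le (a - b)
    have h6 : -(a - b) ≤ |a - b| := neg_le_abs _
    linarith
  have hb4 : s / 4 < b := by
    have h6 : (a - b) ≤ |a - b| := le_abs_self _
    linarith
  have hvs : s / 2 ≤ v := by
    have h1 : (1 : ℝ) / 2 ≤ 1 - G ^ 2 / 2 := by linarith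
    have h2 : (1 : ℝ) / 2 ≤ 1 - H ^ 2 / 2 := by linarith
    have h3 := mul_le_mul_of_nonneg_right h1 ha
    have h5 := mul_le_mul_of_nonneg_right h2 hb
    rw [hv, hsdef]
    linarith
  have hv0 : 0 < v := by linarith
  have huG : (G + H) ^ 2 * s / 16 ≤ u := by
    have h1 : G ^ 2 / 2 * (s / 4) ≤ G ^ 2 / 2 * a := mul_le_mul_of_nonneg_left ha4.le (by positivity)
    have h2 : H ^ 2 / 2 * (s / 4) ≤ H ^ 2 / 2 * b := mul_le_mul_of_nonneg_left hb4.le (by positivity)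
    have h3 : 0 ≤ (G - H) ^ 2 * s := by positivity
    have e : (G + H) ^ 2 * s / 16 =
        G ^ 2 / 2 * (s / 4) + H ^ 2 / 2 * (s / 4) - (G - H) ^ 2 * s / 16 := by ring
    rw [e, hu]
    linarith
  have hu0' : 0 ≤ u := by positivity
  rcases hu0'.eq_or_lt with hu0 | hu0
  · have h1 : (G + H) ^ 2 * s / 16 ≤ 0 := by rw [hu0]; exact huG
    have h2 : (G + H) ^ 2 = 0 := by
      have h3 : 0 ≤ (G + H) ^ 2 := sq_nonneg _
      by_contra hne
      have h5 : 0 < (G + H) ^ 2 := lt_of_le_of_ne h3 (Ne.symm hne)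
      have : 0 < (G + H) ^ 2 * s / 16 := by positivity
      linarith
    have h3 : G + H = 0 := by simpa using h2
    have hG0 : G = 0 := by linarith
    have hH0 : H = 0 := by linarith
    subst hG0
    subst hH0
    rw [hv, hsdef]
    norm_num
  · have hsv : s = u + v := by rw [hu, hv, hsdef]; ring
    have e1 : (G ^ 2 / 2 * a - H ^ 2 / 2 * b) ^ 2 / u +
        ((1 - G ^ 2 / 2) * a - (1 - H ^ 2 / 2) * b) ^ 2 / v - (a - b) ^ 2 / s =
        4 * (a * b) ^ 2 * (G ^ 2 / 2 - H ^ 2 / 2) ^ 2 / (s * u * v) := by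
      have hs0' := hs0.ne'
      have hu0'' := hu0.ne'
      have hv0' := hv0.ne'
      field_simp
      rw [hu, hv, hsdef]
      ring
    have e2 : 4 * (a * b) ^ 2 * (G ^ 2 / 2 - H ^ 2 / 2) ^ 2 / (s * u * v) ≤
        2 * (s * (G - H) ^ 2) := by
      rw [div_le_iff₀ (by positivity)]
      have h1 : (a * b) ^ 2 ≤ s ^ 4 / 16 := by
        have h2 : a * b ≤ s ^ 2 / 4 := by
          have e : s ^ 2 / 4 = a * b + (a - b) ^ 2 / 4 := by rw [hsdef]; ring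
          have := sq_nonneg (a - b)
          linarith
        have h3 : 0 ≤ a * b := by positivity
        have h5 := pow_le_pow_left₀ h3 h2 2
        have e : (s ^ 2 / 4) ^ 2 = s ^ 4 / 16 := by ring
        rwa [e] at h5
      have h2 : (a * b) ^ 2 * (G + H) ^ 2 ≤ 2 * s ^ 2 * u * v := by
        have h3 : (a * b) ^ 2 * (G + H) ^ 2 ≤ s ^ 4 / 16 * (G + H) ^ 2 :=
          mul_le_mul_of_nonneg_right h1 (sq_nonneg _)
        have h5 : ((G + H) ^ 2 * s / 16) * (s / 2) ≤ u * v :=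
          mul_le_mul huG hvs (by positivity) hu0.le
        have h6 : 2 * s ^ 2 * (((G + H) ^ 2 * s / 16) * (s / 2)) ≤ 2 * s ^ 2 * (u * v) :=
          mul_le_mul_of_nonneg_left h5 (by positivity)
        have e : 2 * s ^ 2 * (((G + H) ^ 2 * s / 16) * (s / 2)) = s ^ 4 / 16 * (G + H) ^ 2 := by
          ring
        have e' : 2 * s ^ 2 * (u * v) = 2 * s ^ 2 * u * v := by ring
        rw [e, e'] at h6
        exact h3.trans h6
      have h3 : 4 * (a * b) ^ 2 * (G ^ 2 / 2 - H ^ 2 / 2) ^ 2 =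
          (G - H) ^ 2 * ((a * b) ^ 2 * (G + H) ^ 2) := by ring
      rw [h3]
      have h5 := mul_le_mul_of_nonneg_left h2 (sq_nonneg (G - H))
      calc (G - H) ^ 2 * ((a * b) ^ 2 * (G + H) ^ 2) ≤ (G - H) ^ 2 * (2 * s ^ 2 * u * v) := h5
        _ = 2 * (s * (G - H) ^ 2) * (s * u * v) := by ring
    linarith

theorem kap_split {B a b G H : ℝ} (hB : 4 ≤ B) (ha : 0 ≤ a) (hb : 0 ≤ b) (hG : 0 ≤ G) (hG1 : G ≤ 1)
    (hH : 0 ≤ H) (hH1 : H ≤ 1) :
    kap B (G ^ 2 / 2 * a) (H ^ 2 / 2 * b) + kap B ((1 - G ^ 2 / 2) * a) ((1 - H ^ 2 / 2) * b) ≤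
      kap B a b +
        2 * B * ((a + b) * ((1 - if (a + b) ^ 2 ≤ B * (a - b) ^ 2 then 1 else 0) * (G - H) ^ 2)) := by
  by_cases hard : (a + b) ^ 2 ≤ B * (a - b) ^ 2
  · rw [if_pos hard]
    have h1 : kap B (G ^ 2 / 2 * a) (H ^ 2 / 2 * b) ≤ G ^ 2 / 2 * a + H ^ 2 / 2 * b :=
      min_le_left _ _
    have h2 : kap B ((1 - G ^ 2 / 2) * a) ((1 - H ^ 2 / 2) * b) ≤
        (1 - G ^ 2 / 2) * a + (1 - H ^ 2 / 2) * b := min_le_left _ _
    have h3 : a + b ≤ kap B a b := by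
      refine le_min le_rfl ?_
      rcases (add_nonneg ha hb).eq_or_lt with h0 | h0
      · rw [← h0]; simp
      · rw [le_div_iff₀ h0, ← sq]
        exact hard
    rw [sub_self, zero_mul, mul_zero, mul_zero]
    linarith
  · rw [if_neg hard]
    push Not at hard
    have h1 : kap B (G ^ 2 / 2 * a) (H ^ 2 / 2 * b) ≤
        B * (G ^ 2 / 2 * a - H ^ 2 / 2 * b) ^ 2 / (G ^ 2 / 2 * a + H ^ 2 / 2 * b) :=
      min_le_right _ _
    have h2 : kap B ((1 - G ^ 2 / 2) * a) ((1 - H ^ 2 / 2) * b) ≤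
        B * ((1 - G ^ 2 / 2) * a - (1 - H ^ 2 / 2) * b) ^ 2 /
          ((1 - G ^ 2 / 2) * a + (1 - H ^ 2 / 2) * b) := min_le_right _ _
    have hs0 : 0 < a + b := by
      rcases (add_nonneg ha hb).eq_or_lt with h | h
      · exfalso
        rw [← h] at hard
        have : 0 ≤ B * (a - b) ^ 2 := by positivity
        linarith
      · exact h
    have h3 : kap B a b = B * (a - b) ^ 2 / (a + b) := by
      refine min_eq_right ?_
      rw [div_le_iff₀ hs0, ← sq]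
      exact hard.le
    have h4 := edge_soft hB ha hb hG hG1 hH hH1 hard
    have h5 := mul_le_mul_of_nonneg_left h4 (by linarith : (0 : ℝ) ≤ B)
    rw [h3, sub_zero, one_mul]
    rw [mul_add, mul_add, ← mul_div_assoc, ← mul_div_assoc, ← mul_div_assoc] at h5
    calc _ ≤ _ := add_le_add h1 h2
      _ ≤ _ := h5
      _ = _ := by ring

end Pool.Agent.Grid.KK
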