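import Pool.Agent.Lib.MP_d0893a_co.KK.CE

/-!
# Energy comparison (problem MP_d0893a_co)

Let `G = cE Q J h`, `G' = cE Q (J.erase j) h`, `j ∈ J`.
Proof of `energy_le`. Group the points by their coordinates in `J.erase j`. For a point `x` let
`r x = mg Q J x / mg Q (J.erase j) x`, so `r x + r (fl x j) = 1` when `mg Q (J.erase j) x > 0`, and
`G' x = r x G x + r (fl x j) G (fl x j)`; hence `G x - G' x = r (fl x j) (G x - G (fl x j))` and
`ex ((G - G')^2)`, conditioned on the coordinates in `J.erase j`, is `r x r (fl x j) Δ^2`,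
`Δ = G x - G (fl x j)`. On the other hand if direction `j` is not hard at `y` then
`Q y ≥ (Q y + Q (fl y j))/4` and the same for `fl y j`, so, with
`u x = cE Q (J.erase j) (1 - hard_j) x`, `r x ≥ u x / 4` and `r (fl x j) ≥ u x / 4`, and since one of
the two is `≥ 1/2`: `u x ≤ 8 r x r (fl x j)`. So `ex ((1 - hard_j) Δ^2) = ex (u Δ^2)`
(`ex_mul_cE`: `Δ^2` depends only on `J.erase j`) `≤ 8 ex ((G - G')^2)`, and use `ex_sub_sq`.
`energy_zero`: for `j ∉ J`, `G (fl x j) = G x`.
-/

open Finset

namespace Pool.Agent.Grid.KK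

variable {n : ℕ}

/-- flips preserve the agreement outside the flipped coordinate -/
private theorem agree_fl (x : Cube n) {J : Finset (Fin n)} {j : Fin n} (hj : j ∉ J) :
    ∀ i ∈ J, fl x j i = x i := fun _ hi =>
  fl_ne x (fun h => hj (h ▸ hi))

/-- split a sum over the class of `x` given `J.erase j` -/
private theorem split_sum {J : Finset (Fin n)} {j : Fin n} (hj : j ∈ J) (g : Cube n → ℝ)
    (x : Cube n) :
    (∑ y, if ∀ i ∈ J.erase j, y i = x i then g y else 0) =
      (∑ y, if ∀ i ∈ J, y i = x i then g y else 0) +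
        ∑ y, if ∀ i ∈ J, y i = fl x j i then g y else 0 := by
  classical
  rw [← Finset.sum_add_distrib]
  refine Finset.sum_congr rfl fun y _ => ?_
  have key : (∀ i ∈ J.erase j, y i = x i) ↔
      ((∀ i ∈ J, y i = x i) ∨ (∀ i ∈ J, y i = fl x j i)) := by
    constructor
    · intro h
      rcases eq_or_fl x y j with h1 | h1
      · left
        intro i hi
        by_cases hij : i = j
        · rw [hij]; exact h1
        · exact h i (Finset.mem_erase.mpr ⟨hij, hi⟩)
      · right
        intro i hi
        by_cases hij : i = j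
        · rw [hij]; exact h1
        · rw [fl_ne x hij]; exact h i (Finset.mem_erase.mpr ⟨hij, hi⟩)
    · rintro (h | h) i hi
      · exact h i (Finset.mem_of_mem_erase hi)
      · rw [h i (Finset.mem_of_mem_erase hi), fl_ne x (Finset.ne_of_mem_erase hi)]
  have excl : ¬ ((∀ i ∈ J, y i = x i) ∧ (∀ i ∈ J, y i = fl x j i)) := by
    rintro ⟨h1, h2⟩
    exact fl_self_ne x j ((h2 j hj).symm.trans (h1 j hj))
  by_cases h1 : ∀ i ∈ J, y i = x i
  · have h2 : ¬ ∀ i ∈ J, y i = fl x j i := fun h2 => excl ⟨h1, h2⟩
    rw [if_pos (key.mpr (Or.inl h1)), if_pos h1, if_neg h2, add_zero]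
  · by_cases h2 : ∀ i ∈ J, y i = fl x j i
    · rw [if_pos (key.mpr (Or.inr h2)), if_neg h1, if_pos h2, zero_add]
    · have h3 : ¬ ∀ i ∈ J.erase j, y i = x i := fun h3 => by
        rcases key.mp h3 with h | h
        · exact h1 h
        · exact h2 h
      rw [if_neg h3, if_neg h1, if_neg h2, add_zero]

/-- move a sum over the class of `fl x j` to the class of `x` -/
private theorem shift_sum {J : Finset (Fin n)} {j : Fin n} (g : Cube n → ℝ)
    (x : Cube n) :
    (∑ y, if ∀ i ∈ J, y i = fl x j i then g y else 0) =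
      ∑ y, if ∀ i ∈ J, y i = x i then g (fl y j) else 0 := by
  classical
  rw [← sum_fl (fun y => if ∀ i ∈ J, y i = fl x j i then g y else 0) j]
  refine Finset.sum_congr rfl fun y _ => ?_
  have key : (∀ i ∈ J, fl y j i = fl x j i) ↔ (∀ i ∈ J, y i = x i) := by
    constructor
    · intro h i hi
      by_cases hij : i = j
      · have := h i hi
        rw [hij] at this ⊢
        simp only [fl, Function.update_self] at this
        exact add_right_cancel this
      · have := h i hi
        rwa [fl_ne y hij, fl_ne x hij] at this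
    · intro h i hi
      by_cases hij : i = j
      · have := h i hi
        rw [hij] at this ⊢
        simp only [fl, Function.update_self, this]
      · rw [fl_ne y hij, fl_ne x hij]
        exact h i hi
  by_cases h : ∀ i ∈ J, y i = x i
  · rw [if_pos (key.mpr h), if_pos h]
  · rw [if_neg (fun h' => h (key.mp h')), if_neg h]

private theorem mg_erase (Q : Cube n → ℝ) {J : Finset (Fin n)} {j : Fin n} (hj : j ∈ J)
    (x : Cube n) : mg Q (J.erase j) x = mg Q J x + mg Q J (fl x j) :=
  split_sum hj Q x

private theorem num_eq {Q : Cube n → ℝ} (hQ : ∀ x, 0 ≤ Q x) (J : Finset (Fin n))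
    (h : Cube n → ℝ) (x : Cube n) :
    (∑ y, if ∀ i ∈ J, y i = x i then Q y * h y else 0) = mg Q J x * cE Q J h x := by
  classical
  by_cases h0 : mg Q J x = 0
  · rw [h0, zero_mul]
    refine Finset.sum_eq_zero fun y _ => ?_
    split_ifs with hy
    · have h1 : Q y ≤ mg Q J y := le_mg hQ J y
      rw [mg_congr Q hy, h0] at h1
      rw [le_antisymm h1 (hQ y), zero_mul]
    · rfl
  · rw [cE, mul_div_cancel₀ _ h0]

private theorem cE_erase {Q : Cube n → ℝ} (hQ : ∀ x, 0 ≤ Q x) {J : Finset (Fin n)} {j : Fin n}
    (hj : j ∈ J) (h : Cube n → ℝ) (x : Cube n) :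
    mg Q (J.erase j) x * cE Q (J.erase j) h x =
      mg Q J x * cE Q J h x + mg Q J (fl x j) * cE Q J h (fl x j) := by
  rw [← num_eq hQ, ← num_eq hQ, ← num_eq hQ]
  exact split_sum hj (fun y => Q y * h y) x

/-- mass of the non-hard points in a class -/
private theorem soft_le {B : ℝ} (hB : 4 ≤ B) {Q : Cube n → ℝ} (hQ : ∀ x, 0 ≤ Q x)
    {J : Finset (Fin n)} {j : Fin n} (hj : j ∈ J) (x : Cube n) :
    (∑ y, if ∀ i ∈ J.erase j, y i = x i then Q y * (1 - hard B Q j y) else 0) ≤
      4 * mg Q J x := by
  classical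
  rw [split_sum hj, shift_sum, ← Finset.sum_add_distrib, mg, Finset.mul_sum]
  refine Finset.sum_le_sum fun y _ => ?_
  by_cases h : ∀ i ∈ J, y i = x i
  · rw [if_pos h, if_pos h, if_pos h, hard_fl]
    unfold hard
    split_ifs with hh
    · have := hQ y
      simp only [sub_self, mul_zero, add_zero]
      linarith
    · have h1 := hQ y
      have h2 := hQ (fl y j)
      have h3 : B * (Q y - Q (fl y j)) ^ 2 < (Q y + Q (fl y j)) ^ 2 := not_le.mp hh
      have h4 : 4 * (Q y - Q (fl y j)) ^ 2 < (Q y + Q (fl y j)) ^ 2 := by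
        have : 4 * (Q y - Q (fl y j)) ^ 2 ≤ B * (Q y - Q (fl y j)) ^ 2 :=
          mul_le_mul_of_nonneg_right hB (sq_nonneg _)
        linarith
      simp only [sub_zero, mul_one]
      by_contra hc
      have h5 : 3 * Q y < Q (fl y j) := by linarith
      nlinarith
  · rw [if_neg h, if_neg h, if_neg h]
    simp

theorem energy_le {B : ℝ} (hB : 4 ≤ B) {Q : Cube n → ℝ} (hQ : ∀ x, 0 ≤ Q x)
    {J : Finset (Fin n)} {j : Fin n} (hj : j ∈ J) (h : Cube n → ℝ) :
    ex Q (fun x => (1 - hard B Q j x) * (cE Q J h x - cE Q J h (fl x j)) ^ 2) ≤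
      8 * (ex Q (fun x => cE Q J h x ^ 2) - ex Q (fun x => cE Q (J.erase j) h x ^ 2)) := by
  classical
  set e := J.erase j with he
  have hje : j ∉ e := Finset.notMem_erase j J
  set D : Cube n → ℝ := fun x => (cE Q J h x - cE Q J h (fl x j)) ^ 2 with hD
  set r : Cube n → ℝ := fun x => mg Q J x / mg Q e x with hr
  -- `D` is invariant under the flip of `j` and depends only on `e`
  have hDfl : ∀ x, D (fl x j) = D x := by
    intro x
    simp only [hD, fl_fl]
    ring
  have hDe : ∀ x y, (∀ i ∈ e, x i = y i) → D x = D y := by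
    intro x y hxy
    rcases eq_or_fl y x j with h1 | h1
    · have hJ : ∀ i ∈ J, x i = y i := by
        intro i hi
        by_cases hij : i = j
        · rw [hij]; exact h1
        · exact hxy i (Finset.mem_erase.mpr ⟨hij, hi⟩)
      have hJ' : ∀ i ∈ J, fl x j i = fl y j i := by
        intro i hi
        by_cases hij : i = j
        · rw [hij]
          simp only [fl, Function.update_self, h1]
        · rw [fl_ne x hij, fl_ne y hij]; exact hJ i hi
      simp only [hD]
      rw [cE_congr Q h hJ, cE_congr Q h hJ']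
    · have hJ : ∀ i ∈ J, x i = fl y j i := by
        intro i hi
        by_cases hij : i = j
        · rw [hij]; exact h1
        · rw [fl_ne y hij]; exact hxy i (Finset.mem_erase.mpr ⟨hij, hi⟩)
      have hJ' : ∀ i ∈ J, fl x j i = y i := by
        intro i hi
        by_cases hij : i = j
        · rw [hij]
          have h2 : fl x j j = fl (fl y j) j j := by
            show Function.update x j (x j + 1) j = Function.update (fl y j) j (fl y j j + 1) j
            rw [Function.update_self, Function.update_self, h1]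
          rw [h2, fl_fl]
        · rw [fl_ne x hij]; exact hxy i (Finset.mem_erase.mpr ⟨hij, hi⟩)
      simp only [hD]
      rw [cE_congr Q h hJ, cE_congr Q h hJ']
      ring
  have hre : ∀ x, mg Q e (fl x j) = mg Q e x := fun x => mg_congr Q (agree_fl x hje)
  have hm : ∀ x, mg Q e x = mg Q J x + mg Q J (fl x j) := fun x => mg_erase Q hj x
  have hr0 : ∀ x, 0 ≤ r x := fun x => div_nonneg (mg_nonneg hQ J x) (mg_nonneg hQ e x)
  have hr1 : ∀ x, mg Q e x ≠ 0 → r x + r (fl x j) = 1 := by
    intro x hx
    simp only [hr]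
    rw [hre x, ← add_div, ← hm x, div_self hx]
  have hmpos : ∀ x, Q x ≠ 0 → 0 < mg Q e x := fun x hx =>
    lt_of_lt_of_le (lt_of_le_of_ne (hQ x) (Ne.symm hx)) (le_mg hQ e x)
  -- the left side
  have hL : ex Q (fun x => (1 - hard B Q j x) * D x) =
      ex Q (fun x => D x * cE Q e (fun y => 1 - hard B Q j y) x) := by
    rw [ex_mul_cE hQ e hDe]
    simp only [ex]
    refine Finset.sum_congr rfl fun x _ => ?_
    ring
  have hu : ∀ x, mg Q e x ≠ 0 →
      cE Q e (fun y => 1 - hard B Q j y) x ≤ 8 * (r x * r (fl x j)) := by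
    intro x hx
    have hpos : 0 < mg Q e x := lt_of_le_of_ne (mg_nonneg hQ e x) (Ne.symm hx)
    have h1 : cE Q e (fun y => 1 - hard B Q j y) x ≤ 4 * r x := by
      simp only [cE, hr]
      rw [← mul_div_assoc]
      exact div_le_div_of_nonneg_right (soft_le hB hQ hj x) hpos.le
    have h2 : cE Q e (fun y => 1 - hard B Q j y) x ≤ 4 * r (fl x j) := by
      have h3 : cE Q e (fun y => 1 - hard B Q j y) x =
          cE Q e (fun y => 1 - hard B Q j y) (fl x j) :=
        (cE_congr Q _ (agree_fl x hje)).symm
      rw [h3]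
      simp only [cE, hr]
      rw [← mul_div_assoc]
      refine div_le_div_of_nonneg_right (soft_le hB hQ hj (fl x j)) ?_
      rw [hre x]
      exact hpos.le
    have h4 := hr1 x hx
    have h5 := hr0 x
    have h6 := hr0 (fl x j)
    rcases le_total (r x) (1 / 2) with h7 | h7
    · have h8 : 1 / 2 ≤ r (fl x j) := by linarith
      nlinarith
    · nlinarith
  -- the right side
  have hR : ex Q (fun x => (cE Q J h x - cE Q e h x) ^ 2) =
      ex Q (fun x => D x * (r x * r (fl x j))) := by
    have h1 : ex Q (fun x => (cE Q J h x - cE Q e h x) ^ 2) =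
        ex Q (fun x => D x * r (fl x j) ^ 2) := by
      simp only [ex]
      refine Finset.sum_congr rfl fun x _ => ?_
      by_cases hx : Q x = 0
      · rw [hx, zero_mul, zero_mul]
      · have hp := hmpos x hx
        have h2 : cE Q e h x = r x * cE Q J h x + r (fl x j) * cE Q J h (fl x j) := by
          have h3 := cE_erase hQ hj h x
          rw [← he] at h3
          simp only [hr]
          rw [hre x]
          field_simp
          linarith
        have h4 := hr1 x hp.ne'
        have h5 : cE Q J h x - cE Q e h x = r (fl x j) * (cE Q J h x - cE Q J h (fl x j)) := by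
          rw [h2]
          have h6 : r x = 1 - r (fl x j) := by linarith
          rw [h6]; ring
        rw [h5]
        simp only [hD]
        ring
    rw [h1, ← ex_mul_cE hQ e hDe]
    simp only [ex]
    refine Finset.sum_congr rfl fun x _ => ?_
    by_cases hx : Q x = 0
    · rw [hx, zero_mul, zero_mul]
    · have hp := hmpos x hx
      have h2 := cE_erase hQ hj (fun y => r (fl y j) ^ 2) x
      rw [← he] at h2
      -- conditional expectations of a `J`-measurable function
      have hrJ : ∀ x y : Cube n, (∀ i ∈ J, x i = y i) → r (fl x j) = r (fl y j) := by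
        intro x y hxy
        have hJ' : ∀ i ∈ J, fl x j i = fl y j i := by
          intro i hi
          by_cases hij : i = j
          · rw [hij]
            simp only [fl, Function.update_self, hxy j hj]
          · rw [fl_ne x hij, fl_ne y hij]; exact hxy i hi
        simp only [hr]
        rw [mg_congr Q hJ', mg_congr Q (fun i hi => hJ' i (Finset.mem_of_mem_erase hi))]
      have h3 : ∀ z, mg Q J z * cE Q J (fun y => r (fl y j) ^ 2) z =
          mg Q J z * r (fl z j) ^ 2 := by
        intro z
        rw [← num_eq hQ, mg, Finset.sum_mul]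
        refine Finset.sum_congr rfl fun y _ => ?_
        split_ifs with hy
        · rw [hrJ y z hy]
        · rw [zero_mul]
      rw [h3, h3, fl_fl] at h2
      have h4 := hr1 x hp.ne'
      have h5 : mg Q J x = r x * mg Q e x := by
        simp only [hr]
        rw [div_mul_cancel₀ _ hp.ne']
      have h6 : mg Q J (fl x j) = r (fl x j) * mg Q e x := by
        simp only [hr]
        rw [hre x, div_mul_cancel₀ _ hp.ne']
      rw [h5, h6] at h2
      have h7 : mg Q e x * cE Q e (fun y => r (fl y j) ^ 2) x =
          mg Q e x * (r x * r (fl x j)) := by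
        rw [h2]
        have h8 : r x = 1 - r (fl x j) := by linarith
        rw [h8]; ring
      have h9 := mul_left_cancel₀ hp.ne' h7
      rw [h9]
  calc ex Q (fun x => (1 - hard B Q j x) * (cE Q J h x - cE Q J h (fl x j)) ^ 2)
      = ex Q (fun x => D x * cE Q e (fun y => 1 - hard B Q j y) x) := hL
    _ ≤ ex Q (fun x => 8 * (D x * (r x * r (fl x j)))) := by
        refine ex_mono hQ fun x hx => ?_
        have h1 := hu x (hmpos x hx).ne'
        have h2 : 0 ≤ D x := sq_nonneg _
        nlinarith
    _ = 8 * ex Q (fun x => (cE Q J h x - cE Q e h x) ^ 2) := by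
        rw [hR]
        simp only [ex]
        rw [Finset.mul_sum]
        refine Finset.sum_congr rfl fun x _ => ?_
        ring
    _ = 8 * (ex Q (fun x => cE Q J h x ^ 2) - ex Q (fun x => cE Q e h x ^ 2)) := by
        rw [ex_sub_sq hQ (Finset.erase_subset j J) h]

theorem energy_zero (Q : Cube n → ℝ) {J : Finset (Fin n)} {j : Fin n} (hj : j ∉ J)
    (h : Cube n → ℝ) (x : Cube n) : cE Q J h (fl x j) = cE Q J h x :=
  cE_congr Q h (agree_fl x hj)

end Pool.Agent.Grid.KK
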