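import Pool.Agent.Lib.MP_d0893a_co.KK.Flip

/-!
# Existence of a minimiser (problem MP_d0893a_co)

* `F_smul`: `F` is homogeneous (`log (c w) = log c + log w`; for `c = 0` everything is `0`).
* `exists_isMin`: for each `T` and each `a : Cube n` the set of `Q` with `Q ≥ 0`, `∑ Q = 1`,
  `Q x = 0` unless `x ∈ A` and `x = a` on `T`, is compact, and `F B p T` is continuous on it
  (`kap B` is continuous on `[0,∞)²`: at `(0,0)` because `0 ≤ kap B a b ≤ a + b`; `z log z` is
  continuous). There are finitely many pairs `(T, a)` and the set for `T = ∅` is nonempty.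
  Take the best of the minimisers. For general `w` of mass `M > 0` use `F_smul` with `w / M`; if the
  mass is `0` then `w = 0` and both sides are `0`.
* `F_unif`: `w = 1_A / |A|`: an edge leaving `A` costs `1/|A|` (`B ≥ 1`), other edges cost `0`, and
  `rent = log (2^n/|A|) ≥ 0`.
* `rent_lower`: entropy is at most the logarithm of the size of the support (Jensen).
-/

open Finset

namespace Pool.Agent.Grid.KK

variable {n : ℕ}

private theorem Mini_kap_zero (B : ℝ) : kap B 0 0 = 0 := by
  simp [kap]

private theorem Mini_kap_smul (B a b : ℝ) {c : ℝ} (hc : 0 ≤ c) :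
    kap B (c * a) (c * b) = c * kap B a b := by
  rcases hc.eq_or_lt with h | h
  · subst h; simp [kap]
  · unfold kap
    rw [mul_min_of_nonneg _ _ hc]
    congr 1
    · ring
    · rw [← mul_sub, ← mul_add, mul_pow]
      rcases eq_or_ne (a + b) 0 with h0 | h0
      · simp [h0]
      · field_simp

private theorem Mini_kap_nonneg {B a b : ℝ} (hB : 0 ≤ B) (ha : 0 ≤ a) (hb : 0 ≤ b) :
    0 ≤ kap B a b := by
  unfold kap
  positivity

private theorem Mini_kap_le {B a b : ℝ} : kap B a b ≤ a + b := min_le_left _ _

theorem F_smul (B p : ℝ) (T : Finset (Fin n)) {w : Cube n → ℝ} (hw : ∀ x, 0 ≤ w x) {c : ℝ}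
    (hc : 0 ≤ c) : F B p T (fun x => c * w x) = c * F B p T w := by
  have hm : mass (fun x => c * w x) = c * mass w := by
    unfold mass; rw [mul_sum]
  have hcost : cost B T (fun x => c * w x) = c * cost B T w := by
    unfold cost costj
    rw [mul_sum]
    refine sum_congr rfl fun j _ => ?_
    rw [← mul_div_assoc, mul_sum]
    congr 1
    exact sum_congr rfl fun x _ => Mini_kap_smul B _ _ hc
  have hrent : rent T (fun x => c * w x) = c * rent T w := by
    rcases hc.eq_or_lt with h | h
    · subst h
      simp [rent, mass]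
    · unfold rent
      rw [hm]
      have h1 : ∑ x, c * w x * Real.log (c * w x)
          = c * ∑ x, w x * Real.log (w x) + c * Real.log c * mass w := by
        unfold mass
        rw [mul_sum, mul_sum, ← sum_add_distrib]
        refine sum_congr rfl fun x _ => ?_
        rcases (hw x).eq_or_lt with h0 | h0
        · rw [← h0]; simp
        · rw [Real.log_mul h.ne' h0.ne']; ring
      have h2 : c * mass w * Real.log (c * mass w)
          = c * (mass w * Real.log (mass w)) + c * Real.log c * mass w := by
        rcases eq_or_ne (mass w) 0 with h0 | h0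
        · rw [h0]; simp
        · rw [Real.log_mul h.ne' h0]; ring
      rw [h1, h2]; ring
  unfold F
  rw [hm, hcost, hrent]; ring

private theorem Mini_kap_cont (B : ℝ) (hB : 0 ≤ B) :
    ContinuousOn (fun q : ℝ × ℝ => kap B q.1 q.2) {q | 0 ≤ q.1 ∧ 0 ≤ q.2} := by
  rintro ⟨a, b⟩ ⟨ha, hb⟩
  simp only at ha hb
  rcases (add_nonneg ha hb).eq_or_lt with h | h
  · have ha0 : a = 0 := by linarith
    have hb0 : b = 0 := by linarith
    subst ha0; subst hb0
    unfold ContinuousWithinAt
    simp only [Mini_kap_zero]
    refine tendsto_of_tendsto_of_tendsto_of_le_of_le' (g := fun _ => (0 : ℝ))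
      (h := fun q : ℝ × ℝ => q.1 + q.2) tendsto_const_nhds ?_ ?_ ?_
    · have : Filter.Tendsto (fun q : ℝ × ℝ => q.1 + q.2) (nhds ((0 : ℝ), (0 : ℝ)))
          (nhds (0 + 0)) := (continuous_fst.add continuous_snd).tendsto _
      rw [add_zero] at this
      exact this.mono_left nhdsWithin_le_nhds
    · filter_upwards [self_mem_nhdsWithin] with q hq
      exact Mini_kap_nonneg hB hq.1 hq.2
    · filter_upwards with q
      exact Mini_kap_le
  · have h0 : a + b ≠ 0 := h.ne'
    refine ContinuousAt.continuousWithinAt ?_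
    unfold kap
    have h1 : ContinuousAt (fun q : ℝ × ℝ => q.1 + q.2) (a, b) := by fun_prop
    have h2 : ContinuousAt (fun q : ℝ × ℝ => B * (q.1 - q.2) ^ 2 / (q.1 + q.2)) (a, b) :=
      ContinuousAt.div (by fun_prop) (by fun_prop) h0
    exact Filter.Tendsto.min h1 h2

private theorem Mini_F_cont (B p : ℝ) (hB : 0 ≤ B) (T : Finset (Fin n)) :
    ContinuousOn (fun Q : Cube n → ℝ => F B p T Q) {Q | ∀ x, 0 ≤ Q x} := by
  have hmass : Continuous fun Q : Cube n → ℝ => mass Q := by
    unfold mass; fun_prop
  have hcost : ContinuousOn (fun Q : Cube n → ℝ => cost B T Q) {Q | ∀ x, 0 ≤ Q x} := by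
    unfold cost costj
    refine continuousOn_finsetSum _ fun j _ => ?_
    refine ContinuousOn.div_const ?_ _
    refine continuousOn_finsetSum _ fun x _ => ?_
    exact (Mini_kap_cont B hB).comp (f := fun Q : Cube n → ℝ => (Q x, Q (fl x j)))
      (by fun_prop) fun Q hQ => ⟨hQ _, hQ _⟩
  have hrent : Continuous fun Q : Cube n → ℝ => rent T Q := by
    unfold rent
    refine Continuous.add (Continuous.sub ?_ ?_) ?_
    · refine continuous_finsetSum _ fun x _ => ?_
      exact Real.continuous_mul_log.comp (continuous_apply x)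
    · exact Real.continuous_mul_log.comp hmass
    · fun_prop
  unfold F
  exact (hcost.sub (hrent.continuousOn.div_const _)).add
    ((continuous_const.mul hmass).continuousOn)

/-- the compact set of probability pieces in the subcube through `a` -/
private def MiniK (A : Finset (Cube n)) (T : Finset (Fin n)) (a : Cube n) : Set (Cube n → ℝ) :=
  {Q | (∀ x, 0 ≤ Q x) ∧ mass Q = 1 ∧ ∀ x, ¬(x ∈ A ∧ ∀ j ∈ T, x j = a j) → Q x = 0}

private theorem MiniK_compact (A : Finset (Cube n)) (T : Finset (Fin n)) (a : Cube n) :
    IsCompact (MiniK A T a) := by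
  have hsub : MiniK A T a ⊆ Set.pi Set.univ fun _ : Cube n => Set.Icc (0 : ℝ) 1 := by
    rintro Q ⟨h0, h1, -⟩ x -
    refine ⟨h0 x, ?_⟩
    rw [← h1]
    unfold mass
    exact single_le_sum (f := Q) (fun y _ => h0 y) (mem_univ x)
  refine (isCompact_univ_pi fun _ => isCompact_Icc).of_isClosed_subset ?_ hsub
  have e : MiniK A T a = (⋂ x, {Q : Cube n → ℝ | 0 ≤ Q x}) ∩ ({Q | mass Q = 1} ∩
      ⋂ x, {Q : Cube n → ℝ | ¬(x ∈ A ∧ ∀ j ∈ T, x j = a j) → Q x = 0}) := by
    ext Q
    simp only [MiniK, Set.mem_ofPred_eq, Set.mem_inter_iff, Set.mem_iInter]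
  rw [e]
  refine IsClosed.inter (isClosed_iInter fun x => isClosed_le continuous_const
    (continuous_apply x)) (IsClosed.inter ?_ (isClosed_iInter fun x => ?_))
  · refine isClosed_eq ?_ continuous_const
    unfold mass; fun_prop
  · by_cases h : ¬(x ∈ A ∧ ∀ j ∈ T, x j = a j)
    · simp only [h, not_false_eq_true, forall_const]
      exact isClosed_eq (continuous_apply x) continuous_const
    · have : {Q : Cube n → ℝ | ¬(x ∈ A ∧ ∀ j ∈ T, x j = a j) → Q x = 0} = Set.univ := by
        ext Q; simp only [Set.mem_ofPred_eq, Set.mem_univ, iff_true]; exact fun h' => absurd h' h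
      rw [this]; exact isClosed_univ

theorem exists_isMin {B p : ℝ} (hB : 0 ≤ B) {A : Finset (Cube n)} (hA : A.Nonempty) :
    ∃ T Q, IsMin B p A T Q := by
  classical
  -- minimiser in each nonempty class
  have hex : ∀ q : Finset (Fin n) × Cube n, ∃ Q : Cube n → ℝ, (MiniK A q.1 q.2).Nonempty →
      Q ∈ MiniK A q.1 q.2 ∧ ∀ Q' ∈ MiniK A q.1 q.2, F B p q.1 Q ≤ F B p q.1 Q' := by
    intro q
    by_cases h : (MiniK A q.1 q.2).Nonempty
    · obtain ⟨Q, hQ, hmin⟩ := (MiniK_compact A q.1 q.2).exists_isMinOn h
        ((Mini_F_cont B p hB q.1).mono fun Q hQ => hQ.1)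
      exact ⟨Q, fun _ => ⟨hQ, fun Q' hQ' => hmin hQ'⟩⟩
    · exact ⟨0, fun h' => absurd h' h⟩
  choose m hm using hex
  obtain ⟨a0, ha0⟩ := hA
  have hne0 : (MiniK A ∅ a0).Nonempty := by
    refine ⟨fun x => if x = a0 then 1 else 0, fun x => ?_, ?_, fun x hx => ?_⟩
    · positivity
    · simp [mass]
    · rcases eq_or_ne x a0 with h | h
      · subst h; exact absurd ⟨ha0, by simp⟩ hx
      · simp [h]
  let S : Finset (Finset (Fin n) × Cube n) := univ.filter fun q => (MiniK A q.1 q.2).Nonempty
  have hS : S.Nonempty := ⟨(∅, a0), by simp only [S, mem_filter, mem_univ, true_and]; exact hne0⟩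
  obtain ⟨q, hqS, hq⟩ := S.exists_min_image (fun q => F B p q.1 (m q)) hS
  have hqne : (MiniK A q.1 q.2).Nonempty := by
    simpa only [S, mem_filter, mem_univ, true_and] using hqS
  obtain ⟨hmq, hmin⟩ := hm q hqne
  refine ⟨q.1, m q, ⟨hmq.1, fun x hx => ?_, fun x y hx hy j hj => ?_⟩, hmq.2.1, ?_⟩
  · by_contra h
    exact hx (hmq.2.2 x fun h' => h h'.1)
  · have h1 : x ∈ A ∧ ∀ j ∈ q.1, x j = q.2 j := by
      by_contra h; exact hx (hmq.2.2 x h)
    have h2 : y ∈ A ∧ ∀ j ∈ q.1, y j = q.2 j := by
      by_contra h; exact hy (hmq.2.2 y h)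
    rw [h1.2 j hj, h2.2 j hj]
  · intro T' w hw
    have hM : 0 ≤ mass w := sum_nonneg fun x _ => hw.nonneg x
    rcases hM.eq_or_lt with h | h
    · have hz : ∀ x, w x = 0 := by
        have := (sum_eq_zero_iff_of_nonneg fun x (_ : x ∈ univ) => hw.nonneg x).1 h.symm
        exact fun x => this x (mem_univ x)
      have hw0 : w = fun x => 0 * w x := by
        ext x; rw [hz x]; simp
      rw [← h, mul_zero, hw0, F_smul B p T' hw.nonneg le_rfl, zero_mul]
    · obtain ⟨x0, hx0⟩ : ∃ x0, w x0 ≠ 0 := by
        by_contra hc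
        push Not at hc
        have : mass w = 0 := sum_eq_zero fun x _ => hc x
        exact h.ne' this
      have hQ' : (fun x => (mass w)⁻¹ * w x) ∈ MiniK A T' x0 := by
        refine ⟨fun x => mul_nonneg (inv_nonneg.2 h.le) (hw.nonneg x), ?_, fun x hx => ?_⟩
        · show ∑ x, (mass w)⁻¹ * w x = 1
          rw [← mul_sum]
          exact inv_mul_cancel₀ h.ne'
        · have : w x = 0 := by
            by_contra hc
            exact hx ⟨hw.supp x hc, fun j hj => hw.const x x0 hc hx0 j hj⟩
          simp [this]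
      have hne : (MiniK A T' x0).Nonempty := ⟨_, hQ'⟩
      have h1 := hq (T', x0) (by simp only [S, mem_filter, mem_univ, true_and]; exact hne)
      have h2 := (hm (T', x0) hne).2 _ hQ'
      have h3 : F B p q.1 (m q) ≤ F B p T' fun x => (mass w)⁻¹ * w x := h1.trans h2
      rw [F_smul B p T' hw.nonneg (inv_nonneg.2 h.le)] at h3
      calc F B p q.1 (m q) * mass w ≤ ((mass w)⁻¹ * F B p T' w) * mass w :=
            mul_le_mul_of_nonneg_right h3 h.le
        _ = F B p T' w := by field_simp

theorem F_unif_le {B p : ℝ} (hB : 1 ≤ B) {A : Finset (Cube n)} (hA : A.Nonempty) :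
    Adm A ∅ (fun x => if x ∈ A then (1 : ℝ) / A.card else 0) ∧
    mass (fun x => if x ∈ A then (1 : ℝ) / A.card else 0) = 1 ∧
    F B p ∅ (fun x => if x ∈ A then (1 : ℝ) / A.card else 0) ≤ sens A / A.card := by
  have hc : (0 : ℝ) < A.card := by exact_mod_cast hA.card_pos
  have hmass : mass (fun x => if x ∈ A then (1 : ℝ) / A.card else 0) = 1 := by
    unfold mass
    rw [← sum_filter, filter_mem_eq_inter, univ_inter, sum_const, nsmul_eq_mul]
    field_simp
  refine ⟨⟨fun x => ?_, fun x hx => ?_, fun x y _ _ j hj => by simp at hj⟩, hmass, ?_⟩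
  · positivity
  · by_contra h; simp [h] at hx
  · have hcost : cost B ∅ (fun x => if x ∈ A then (1 : ℝ) / A.card else 0)
        = sens A / A.card := by
      unfold cost sens
      rw [compl_empty, sum_div]
      refine sum_congr rfl fun j _ => ?_
      unfold costj
      have hk : ∀ x : Cube n, kap B (if x ∈ A then (1 : ℝ) / A.card else 0)
          (if fl x j ∈ A then (1 : ℝ) / A.card else 0)
          = (if x ∈ A ∧ fl x j ∉ A then (1 : ℝ) / A.card else 0)
            + (if fl x j ∈ A ∧ fl (fl x j) j ∉ A then (1 : ℝ) / A.card else 0) := by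
        intro x
        rw [fl_fl]
        have hd : (1 : ℝ) / A.card ≤ B * (1 / A.card) ^ 2 / (1 / A.card) := by
          have : B * (1 / (A.card : ℝ)) ^ 2 / (1 / A.card) = B * (1 / A.card) := by
            field_simp
          rw [this]
          exact le_mul_of_one_le_left (by positivity) hB
        by_cases h1 : x ∈ A <;> by_cases h2 : fl x j ∈ A
        · simp only [h1, h2, if_true, not_true_eq_false, and_false, if_false, add_zero]
          unfold kap
          rw [sub_self]
          simp only [ne_eq, OfNat.ofNat_ne_zero, not_false_eq_true, zero_pow, mul_zero, zero_div]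
          exact min_eq_right (by positivity)
        · simp only [h1, h2, if_true, not_false_eq_true, and_self, false_and, if_false, add_zero]
          unfold kap
          rw [sub_zero, add_zero]
          exact min_eq_left hd
        · simp only [h1, h2, if_true, not_false_eq_true, and_self, false_and, if_false, zero_add]
          unfold kap
          rw [zero_sub, zero_add, neg_sq]
          exact min_eq_left hd
        · simp [h1, h2, Mini_kap_zero]
      have hs : ∑ x : Cube n, kap B (if x ∈ A then (1 : ℝ) / A.card else 0)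
          (if fl x j ∈ A then (1 : ℝ) / A.card else 0)
          = 2 * ∑ x : Cube n, (if x ∈ A ∧ fl x j ∉ A then (1 : ℝ) / A.card else 0) := by
        rw [sum_congr rfl fun x _ => hk x, sum_add_distrib,
          sum_fl (fun x => if x ∈ A ∧ fl x j ∉ A then (1 : ℝ) / A.card else 0) j, two_mul]
      rw [hs]
      have hf : ∑ x : Cube n, (if x ∈ A ∧ fl x j ∉ A then (1 : ℝ) / A.card else 0)
          = ((A.filter fun x => fl x j ∉ A).card : ℝ) / A.card := by
        rw [← sum_filter, sum_const, nsmul_eq_mul]
        have : (univ.filter fun x : Cube n => x ∈ A ∧ fl x j ∉ A)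
            = A.filter fun x => fl x j ∉ A := by
          ext x; simp
        rw [this]; ring
      rw [hf]; ring
    have hrent : 0 ≤ rent ∅ (fun x => if x ∈ A then (1 : ℝ) / A.card else 0) := by
      unfold rent
      rw [hmass, Real.log_one, mul_zero, sub_zero, one_mul, compl_empty]
      have h1 : ∑ x : Cube n, (if x ∈ A then (1 : ℝ) / A.card else 0)
          * Real.log (if x ∈ A then (1 : ℝ) / A.card else 0) = -Real.log A.card := by
        have : ∀ x : Cube n, (if x ∈ A then (1 : ℝ) / A.card else 0)
            * Real.log (if x ∈ A then (1 : ℝ) / A.card else 0)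
            = if x ∈ A then (1 : ℝ) / A.card * Real.log (1 / A.card) else 0 := by
          intro x; split_ifs <;> simp
        rw [sum_congr rfl fun x _ => this x, ← sum_filter, filter_mem_eq_inter, univ_inter,
          sum_const, nsmul_eq_mul, one_div, Real.log_inv]
        field_simp
      rw [h1]
      have h2 : Real.log A.card ≤ (univ : Finset (Fin n)).card * Real.log 2 := by
        rw [card_univ, Fintype.card_fin, ← Real.log_pow]
        refine Real.log_le_log hc ?_
        have h3 : A.card ≤ 2 ^ n := by
          calc A.card ≤ (univ : Finset (Cube n)).card := card_le_univ A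
            _ = 2 ^ n := by simp [Cube]
        exact_mod_cast h3
      linarith
    unfold F
    rw [hcost, hmass, card_empty]
    push_cast
    linarith

/-- a piece of small relative entropy gives a dense subcube -/
theorem exists_subcube {A : Finset (Cube n)} {T : Finset (Fin n)} {Q : Cube n → ℝ}
    (hA : Adm A T Q) (h1 : mass Q = 1) :
    ∃ a : Cube n, Real.exp (-rent T Q) * ((univ.filter fun x : Cube n => ∀ j ∈ T, x j = a j).card : ℝ)
      ≤ (((A.filter fun x => ∀ j ∈ T, x j = a j).card : ℕ) : ℝ) := by
  classical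
  obtain ⟨a, ha⟩ : ∃ a, Q a ≠ 0 := by
    by_contra hc
    push Not at hc
    have : mass Q = 0 := sum_eq_zero fun x _ => hc x
    rw [h1] at this
    exact one_ne_zero this
  refine ⟨a, ?_⟩
  set S := A.filter fun x => ∀ j ∈ T, x j = a j with hS
  have haS : a ∈ S := by
    rw [hS, mem_filter]; exact ⟨hA.supp a ha, fun _ _ => rfl⟩
  have hSpos : (0 : ℝ) < S.card := by exact_mod_cast card_pos.2 ⟨a, haS⟩
  have hout : ∀ x, x ∉ S → Q x = 0 := by
    intro x hx
    by_contra hc
    exact hx (mem_filter.2 ⟨hA.supp x hc, fun j hj => hA.const x a hc ha j hj⟩)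
  have hcube : (univ.filter fun x : Cube n => ∀ j ∈ T, x j = a j).card = 2 ^ Tᶜ.card := by
    have e : (univ.filter fun x : Cube n => ∀ j ∈ T, x j = a j)
        = Fintype.piFinset fun j => if j ∈ T then {a j} else (univ : Finset (Fin 2)) := by
      ext x
      simp only [mem_filter, mem_univ, true_and, Fintype.mem_piFinset]
      constructor
      · intro h j
        by_cases hj : j ∈ T
        · simp [hj, h j hj]
        · simp [hj]
      · intro h j hj
        have := h j
        simpa [hj] using this
    rw [e, Fintype.card_piFinset]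
    rw [← Finset.prod_mul_prod_compl T]
    rw [prod_congr rfl (g := fun _ => 1) (fun j hj => by simp [hj]),
      prod_congr (s₁ := Tᶜ) rfl (g := fun _ => 2) (fun j hj => by
        rw [mem_compl] at hj; simp [hj])]
    simp
  have hsum1 : ∑ x ∈ S, Q x = 1 := by
    rw [← h1]
    unfold mass
    exact sum_subset (subset_univ S) fun x _ hx => hout x hx
  have hrent : rent T Q = ∑ x ∈ S, Q x * Real.log (Q x) + Tᶜ.card * Real.log 2 := by
    unfold rent
    rw [h1, Real.log_one, mul_zero, sub_zero, one_mul]
    congr 1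
    refine (sum_subset (subset_univ S) fun x _ hx => ?_).symm
    rw [hout x hx, zero_mul]
  have hJ : -Real.log S.card ≤ ∑ x ∈ S, Q x * Real.log (Q x) := by
    have hpt : ∀ x ∈ S, Q x - 1 / S.card ≤ Q x * Real.log (Q x) + Q x * Real.log S.card := by
      intro x _
      rcases (hA.nonneg x).eq_or_lt with h0 | h0
      · rw [← h0]; simp
      · have h2 := Real.one_sub_inv_le_log_of_pos (mul_pos h0 hSpos)
        rw [Real.log_mul h0.ne' hSpos.ne'] at h2
        have h3 := mul_le_mul_of_nonneg_left h2 h0.le
        have h4 : Q x * (1 - (Q x * (S.card : ℝ))⁻¹) = Q x - 1 / S.card := by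
          field_simp
        rw [h4] at h3
        linarith
    have hs := sum_le_sum hpt
    rw [sum_sub_distrib, sum_add_distrib, hsum1, ← sum_mul, hsum1, sum_const, nsmul_eq_mul,
      one_mul] at hs
    have h5 : (S.card : ℝ) * (1 / S.card) = 1 := by field_simp
    rw [h5] at hs
    linarith
  rw [hcube, hrent]
  push_cast
  have h6 : Real.exp (-(∑ x ∈ S, Q x * Real.log (Q x) + Tᶜ.card * Real.log 2)) * 2 ^ Tᶜ.card
      = Real.exp (-∑ x ∈ S, Q x * Real.log (Q x)) := by
    rw [neg_add, Real.exp_add, Real.exp_neg (_ * Real.log 2), ← Real.log_pow,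
      Real.exp_log (by positivity)]
    field_simp
  rw [h6]
  calc Real.exp (-∑ x ∈ S, Q x * Real.log (Q x)) ≤ Real.exp (Real.log S.card) :=
        Real.exp_le_exp.2 (by linarith)
    _ = S.card := Real.exp_log hSpos

end Pool.Agent.Grid.KK
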