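import Pool.Agent.Lib.MP_d0893a_co.KK.KKL
import Pool.Agent.Lib.MP_d0893a_co.KK.Mini
import Pool.Agent.Lib.MP_d0893a_co.KK.Calc

/-!
# Main theorem (problem MP_d0893a_co)

Proof of `strong`. Let `m = sens A / |A|`. WLOG `η ≤ 1`. Take `v = η/8`, `B = 16/η` (`≥ 4`),
`R = 64 B`, `p` with `log (1/(2p)) = Λ ≥ 8 (R/v + 1) / η` (e.g. `p = exp (-Λ)/2`), `N = 1/p`.
`exists_isMin` gives `(T, Q)`. By `F_unif_le` and minimality `F B p T Q ≤ m`; by `rent_le_cost`
`F ≥ cost/2 + p |T|`, so `cost ≤ 2m`, `|T| ≤ m/p`. `calc_final` with `U = Tᶜ`, `d = DD Q`, `g = gg B Q`,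
`c = costj B Q`, `σ i = ex (ss^2 (1 - hard))` (`DD_step_le`, `ex_ss_le`, `DD_step_le'`, `gg_*`,
`ex_hard_le`, `kkl`, `ex_soft_le`) and `DD_full`: `rent T Q ≤ (η/4 + η/8 + η/8) cost ≤ η m`.
`exists_subcube`.
-/

open Finset

namespace Pool.Agent.Grid.KK

/-- the relative entropy of the minimising piece -/
private theorem rent_bound {n : ℕ} {η B p : ℝ} (hη : 0 < η) (hη1 : η ≤ 1) (hB : B = 16 / η)
    (hp : p = Real.exp (-(8 * (64 * B / (η / 8) + 1) / η)) / 2)
    {A : Finset (Cube n)} {T : Finset (Fin n)} {Q : Cube n → ℝ} (h : IsMin B p A T Q) :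
    rent T Q ≤ η / 2 * cost B T Q := by
  have hB16 : 16 ≤ B := by
    rw [hB, le_div_iff₀ hη]; linarith
  have hB0 : 0 < B := by linarith
  set Λ : ℝ := 8 * (64 * B / (η / 8) + 1) / η with hΛ
  have hΛ0 : 0 < Λ := by positivity
  have hp0 : 0 < p := by rw [hp]; positivity
  have hp2 : p < 1 / 2 := by
    rw [hp]
    have : Real.exp (-Λ) < 1 := by rw [Real.exp_lt_one_iff]; linarith
    linarith
  have hlog : Real.log (1 / (2 * p)) = Λ := by
    rw [hp]
    have : 2 * (Real.exp (-Λ) / 2) = Real.exp (-Λ) := by ring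
    rw [this, one_div, Real.log_inv, Real.log_exp, neg_neg]
  have hQ := h.adm.nonneg
  have h1 := h.mass_one
  have key := calc_final (Tᶜ) (DD Q) (gg B Q) (costj B Q)
    (fun i => ex Q (fun x => ss Q i x ^ 2 * (1 - hard B Q i x))) (Λ := Λ) (R := 64 * B)
    (v := η / 8) hΛ0 (by positivity) (by positivity) (by linarith) (DD_empty h1)
    (fun i _ J _ hiJ => (DD_step_le hQ h1 hiJ).trans (ex_ss_le (by linarith) hQ i))
    (fun i _ J _ hiJ => DD_step_le' hQ h1 B hiJ)
    (fun i _ => costj_nonneg hB0.le hQ i)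
    (fun i _ => by
      unfold ex
      exact Finset.sum_nonneg fun x _ => mul_nonneg (hQ x)
        (mul_nonneg (sq_nonneg _) (sub_nonneg.2 (hard_le_one B Q i x))))
    (fun i _ J _ => gg_nonneg B hQ i J)
    (fun i _ J _ J' _ hJJ' => gg_mono B hQ i hJJ')
    (fun i _ J _ => (gg_le B hQ i J).trans (ex_hard_le hB0 hQ i))
    (fun i _ J _ => gg_erase B Q i J)
    (fun i hi J hJ => by
      have h2 := kkl (B := B) (p := p) (by linarith) hp0 hp2 h
        (by simpa using hi : i ∉ T) hJ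
      rw [hlog] at h2
      exact h2)
  rw [DD_full h.adm h1] at key
  have hσ : ∑ i ∈ Tᶜ, ex Q (fun x => ss Q i x ^ 2 * (1 - hard B Q i x)) ≤ cost B T Q / B := by
    unfold cost
    rw [Finset.sum_div]
    exact Finset.sum_le_sum fun i _ => ex_soft_le hB0 hQ i
  have hc : ∑ i ∈ Tᶜ, costj B Q i = cost B T Q := rfl
  have hcost : 0 ≤ cost B T Q := Finset.sum_nonneg fun i _ => costj_nonneg hB0.le hQ i
  rw [hc] at key
  have e1 : 2 * (64 * B / (η / 8) + 1) / Λ = η / 4 := by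
    rw [hΛ]
    have : (64 * B / (η / 8) + 1) ≠ 0 := by positivity
    field_simp
    ring
  have e2 : cost B T Q / B = η / 16 * cost B T Q := by
    rw [hB]; field_simp
  rw [e1] at key
  rw [e2] at hσ
  calc rent T Q ≤ (η / 4 + η / 8) * cost B T Q +
        2 * ∑ i ∈ Tᶜ, ex Q (fun x => ss Q i x ^ 2 * (1 - hard B Q i x)) := key
    _ ≤ (η / 4 + η / 8) * cost B T Q + 2 * (η / 16 * cost B T Q) := by linarith
    _ = η / 2 * cost B T Q := by ring

theorem strong {η : ℝ} (hη : 0 < η) : ∃ N : ℝ, 0 < N ∧ ∀ (n : ℕ) (A : Finset (Cube n)),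
    A.Nonempty → ∃ (T : Finset (Fin n)) (a : Cube n),
      (T.card : ℝ) ≤ N * (sens A / A.card) ∧
      Real.exp (-(η * (sens A / A.card))) *
          ((univ.filter fun x : Cube n => ∀ j ∈ T, x j = a j).card : ℝ) ≤
        (((A.filter fun x => ∀ j ∈ T, x j = a j).card : ℕ) : ℝ) := by
  set η' : ℝ := min η 1 with hη'
  have hη0 : 0 < η' := lt_min hη one_pos
  have hη1 : η' ≤ 1 := min_le_right _ _
  set B : ℝ := 16 / η' with hB
  have hB16 : 16 ≤ B := by
    rw [hB, le_div_iff₀ hη0]; linarith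
  have hB0 : 0 < B := by linarith
  set p : ℝ := Real.exp (-(8 * (64 * B / (η' / 8) + 1) / η')) / 2 with hp
  have hp0 : 0 < p := by rw [hp]; positivity
  refine ⟨1 / p, by positivity, fun n A hA => ?_⟩
  obtain ⟨T, Q, h⟩ := exists_isMin (B := B) (p := p) hB0.le hA
  obtain ⟨hu1, hu2, hu3⟩ := F_unif_le (B := B) (p := p) (by linarith) hA
  set m : ℝ := sens A / A.card with hm
  have hF : F B p T Q ≤ m := by
    have h2 := h.min ∅ _ hu1
    rw [hu2, mul_one] at h2
    exact h2.trans hu3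
  have hrc := rent_le_cost (B := B) (by linarith) h.adm h.mass_one
  have hcost : 0 ≤ cost B T Q := Finset.sum_nonneg fun i _ => costj_nonneg hB0.le h.adm.nonneg i
  have hFe : F B p T Q = cost B T Q - rent T Q / 2 + p * T.card := by
    unfold F
    rw [h.mass_one, mul_one]
  have hT : 0 ≤ p * T.card := by positivity
  have hcm : cost B T Q ≤ 2 * m := by linarith
  have hTm : p * T.card ≤ m := by linarith
  have hrb := rent_bound hη0 hη1 hB hp h
  have hm0 : 0 ≤ m := by linarith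
  obtain ⟨a, ha⟩ := exists_subcube h.adm h.mass_one
  refine ⟨T, a, ?_, le_trans ?_ ha⟩
  · rw [one_div, inv_mul_eq_div, le_div_iff₀ hp0]
    linarith
  · refine mul_le_mul_of_nonneg_right (Real.exp_le_exp.2 ?_) (Nat.cast_nonneg _)
    have h3 : rent T Q ≤ η' * m := by
      calc rent T Q ≤ η' / 2 * cost B T Q := hrb
        _ ≤ η' / 2 * (2 * m) := by gcongr
        _ = η' * m := by ring
    have h4 : η' * m ≤ η * m := mul_le_mul_of_nonneg_right (min_le_left _ _) hm0
    linarith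

end Pool.Agent.Grid.KK
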