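import Pool.Agent.Lib.MP_d0893a_co.KK.Defs

/-!
# Flips (problem MP_d0893a_co)
`sum_fl`: the map `x ↦ fl x j` is an involution, so `∑ x, h (fl x j) = ∑ x, h x`.
-/

open Finset

namespace Pool.Agent.Grid.KK

variable {n : ℕ}

private theorem fin2_add (a : Fin 2) : a + 1 + 1 = a := by
  revert a; decide

private theorem fin2_ne (a : Fin 2) : a + 1 ≠ a := by
  revert a; decide

private theorem fin2_or (a b : Fin 2) : b = a ∨ b = a + 1 := by
  revert a b; decide

private theorem fin2_zero (a : Fin 2) : a + 1 = 0 ↔ ¬ a = 0 := by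
  revert a; decide

theorem fl_fl (x : Cube n) (j : Fin n) : fl (fl x j) j = x := by
  unfold fl
  rw [Function.update_self, Function.update_idem, fin2_add, Function.update_eq_self]

theorem fl_ne (x : Cube n) {i j : Fin n} (h : i ≠ j) : fl x j i = x i := by
  unfold fl
  rw [Function.update_of_ne h]

private theorem fl_self (x : Cube n) (j : Fin n) : fl x j j = x j + 1 := by
  unfold fl
  rw [Function.update_self]

theorem fl_self_ne (x : Cube n) (j : Fin n) : fl x j j ≠ x j := by
  rw [fl_self]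
  exact fin2_ne _

/-- the two values of a coordinate -/
theorem eq_or_fl (x y : Cube n) (j : Fin n) : y j = x j ∨ y j = fl x j j := by
  rw [fl_self]
  exact fin2_or _ _

theorem sum_fl (h : Cube n → ℝ) (j : Fin n) : ∑ x, h (fl x j) = ∑ x, h x := by
  refine Finset.sum_bij' (fun x _ => fl x j) (fun x _ => fl x j) ?_ ?_ ?_ ?_ ?_
  · intro x _; exact Finset.mem_univ _
  · intro x _; exact Finset.mem_univ _
  · intro x _; exact fl_fl x j
  · intro x _; exact fl_fl x j
  · intro x _; rfl

theorem sg_fl (x : Cube n) (j : Fin n) : sg (fl x j) j = -sg x j := by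
  unfold sg
  rw [fl_self]
  by_cases h : x j = 0
  · rw [if_neg (by rw [fin2_zero]; exact not_not.mpr h), if_pos h]
  · rw [if_pos (by rw [fin2_zero]; exact h), if_neg h, neg_neg]

theorem sg_fl_ne (x : Cube n) {i j : Fin n} (h : i ≠ j) : sg (fl x j) i = sg x i := by
  unfold sg
  rw [fl_ne x h]

theorem sg_sq (x : Cube n) (j : Fin n) : sg x j ^ 2 = 1 := by
  unfold sg
  split_ifs <;> norm_num

theorem ss_fl (Q : Cube n → ℝ) (x : Cube n) (j : Fin n) : ss Q j (fl x j) = -ss Q j x := by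
  unfold ss
  rw [fl_fl, ← neg_div, neg_sub, add_comm (Q (fl x j)) (Q x)]

theorem hard_fl (B : ℝ) (Q : Cube n → ℝ) (x : Cube n) (j : Fin n) :
    hard B Q j (fl x j) = hard B Q j x := by
  unfold hard
  rw [fl_fl]
  have h1 : (Q (fl x j) + Q x) ^ 2 = (Q x + Q (fl x j)) ^ 2 := by ring
  have h2 : (Q (fl x j) - Q x) ^ 2 = (Q x - Q (fl x j)) ^ 2 := by ring
  rw [h1, h2]

theorem hard_nonneg (B : ℝ) (Q : Cube n → ℝ) (j : Fin n) (x : Cube n) : 0 ≤ hard B Q j x := by
  unfold hard
  split_ifs <;> norm_num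

theorem hard_le_one (B : ℝ) (Q : Cube n → ℝ) (j : Fin n) (x : Cube n) : hard B Q j x ≤ 1 := by
  unfold hard
  split_ifs <;> norm_num

/-- symmetrisation: if `h` is invariant under the flip of `j` -/
theorem ex_symm (Q : Cube n → ℝ) (j : Fin n) {h : Cube n → ℝ} (hh : ∀ x, h (fl x j) = h x) :
    ex Q h = (∑ x, (Q x + Q (fl x j)) * h x) / 2 := by
  have h1 : ∑ x, Q (fl x j) * h x = ∑ x, Q x * h x := by
    rw [← sum_fl (fun x => Q x * h x) j]
    refine Finset.sum_congr rfl fun x _ => ?_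
    rw [hh x]
  unfold ex
  have h2 : ∑ x, (Q x + Q (fl x j)) * h x = ∑ x, Q x * h x + ∑ x, Q (fl x j) * h x := by
    rw [← Finset.sum_add_distrib]
    refine Finset.sum_congr rfl fun x _ => ?_
    ring
  rw [h2, h1]
  ring

end Pool.Agent.Grid.KK
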