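import Pool.Agent.Lib.MP_d0893a_co.KK.Final
import Pool.Agent.Lib.MP_d0893a_co.Ent.MBound

/-!
# Q1 for `k = 2` (problem MP_d0893a_co)

* `sens_le`: the pairs `(x, j)` with `x ∈ A`, `fl x j ∉ A` are in bijection with the boundary edges of
  the grid `[2]^n` (`s(x, fl x j)`; injective since `x ∈ A`, `fl x j ∉ A`).
* `card_subcube`: the subcube fixing `T` has `2^(n-|T|)` points.
* `dens2`: `λ = log (1/α)`, `mBound_le` (`α ≥ 2^(-n)` because `A` is nonempty):
  `sens A / |A| ≤ max L 1 * (1/log 2) * λ =: K λ`; `strong` with `η = 1/(2K)`, `L' = N K log 2`, `δ = 1/4`;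
  `exp (-η m) ≥ α^(1/2) ≥ (5/4) α`. `S j = {a j}` for `j ∈ T`, `univ` otherwise. The empty set:
  `S = univ` (as in `CubeReduction`).
-/

open Finset

namespace Pool.Agent.Grid.KK

variable {n : ℕ}

private theorem fin2_abs (a : Fin 2) : |(((a : ℕ) : ℤ) - (((a + 1 : Fin 2) : ℕ) : ℤ))| = 1 := by
  revert a; decide

private theorem adj_fl (x : Cube n) (j : Fin n) : (gridGraph 2 n).Adj x (fl x j) := by
  show ∑ i, |(((x i : ℕ) : ℤ) - ((fl x j i : ℕ) : ℤ))| = 1
  rw [Finset.sum_eq_single j]
  · have : fl x j j = x j + 1 := by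
      unfold fl
      rw [Function.update_self]
    rw [this]
    exact fin2_abs _
  · intro i _ hij
    rw [fl_ne x hij, sub_self, abs_zero]
  · intro h
    exact absurd (Finset.mem_univ j) h

private theorem fl_inj {x : Cube n} {i j : Fin n} (h : fl x i = fl x j) : i = j := by
  by_contra hij
  have h1 : fl x i i = fl x j i := by rw [h]
  rw [fl_ne x hij] at h1
  exact fl_self_ne x i h1

theorem sens_le (A : Finset (Cube n)) : sens A ≤ (edgeBoundary A).card := by
  classical
  have h1 : sens A = ((univ.sigma fun j : Fin n => A.filter fun x => fl x j ∉ A).card : ℝ) := by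
    unfold sens
    rw [Finset.card_sigma]
    push_cast
    rfl
  rw [h1]
  norm_cast
  refine Finset.card_le_card_of_injOn
    (fun q : (Σ _ : Fin n, Cube n) => s(q.2, fl q.2 q.1)) ?_ ?_
  · rintro ⟨j, x⟩ hq
    rw [Finset.mem_coe, Finset.mem_sigma, Finset.mem_filter] at hq
    obtain ⟨_, hx, hfx⟩ := hq
    rw [Finset.mem_coe]
    unfold edgeBoundary
    rw [Finset.mem_filter, SimpleGraph.mem_edgeFinset, SimpleGraph.mem_edgeSet]
    exact ⟨adj_fl x j, x, hx, fl x j, hfx, rfl⟩
  · rintro ⟨j, x⟩ hq ⟨i, y⟩ hr heq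
    rw [Finset.mem_coe, Finset.mem_sigma, Finset.mem_filter] at hq hr
    obtain ⟨_, hx, hfx⟩ := hq
    obtain ⟨_, hy, hfy⟩ := hr
    simp only at hx hfx hy hfy
    have heq' : s(x, fl x j) = s(y, fl y i) := heq
    rw [Sym2.eq_iff] at heq'
    rcases heq' with ⟨h2, h3⟩ | ⟨h2, _⟩
    · subst h2
      have := fl_inj h3
      subst this
      rfl
    · exact absurd (h2 ▸ hx) hfy

private theorem pi_eq (T : Finset (Fin n)) (a : Cube n) :
    (univ.filter fun x : Cube n => ∀ j ∈ T, x j = a j) =
      Fintype.piFinset (fun j => if j ∈ T then {a j} else (univ : Finset (Fin 2))) := by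
  ext x
  rw [Finset.mem_filter, Fintype.mem_piFinset]
  constructor
  · rintro ⟨_, h⟩ j
    split_ifs with hj
    · rw [Finset.mem_singleton]; exact h j hj
    · exact Finset.mem_univ _
  · intro h
    refine ⟨Finset.mem_univ _, fun j hj => ?_⟩
    have h2 := h j
    rw [if_pos hj, Finset.mem_singleton] at h2
    exact h2

theorem card_subcube (T : Finset (Fin n)) (a : Cube n) :
    ((univ.filter fun x : Cube n => ∀ j ∈ T, x j = a j).card : ℝ) = 2 ^ n / 2 ^ T.card := by
  rw [pi_eq, Fintype.card_piFinset]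
  push_cast
  have h1 : ∀ j : Fin n, (((if j ∈ T then {a j} else (univ : Finset (Fin 2))).card : ℕ) : ℝ) =
      if j ∈ T then (1 : ℝ) else 2 := by
    intro j
    split_ifs
    · simp
    · simp
  rw [Finset.prod_congr rfl fun j _ => h1 j]
  rw [eq_div_iff (by positivity)]
  have h2 : (2 : ℝ) ^ T.card = ∏ j : Fin n, if j ∈ T then (2 : ℝ) else 1 := by
    rw [Finset.prod_ite_mem, Finset.univ_inter, Finset.prod_const]
  rw [h2, ← Finset.prod_mul_distrib]
  have h3 : ∀ j : Fin n, (if j ∈ T then (1 : ℝ) else 2) * (if j ∈ T then (2 : ℝ) else 1) = 2 := by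
    intro j
    split_ifs <;> norm_num
  rw [Finset.prod_congr rfl fun j _ => h3 j, Finset.prod_const, Finset.card_univ,
    Fintype.card_fin]

theorem dens2 : DensityIncrement {2} := by
  intro L hL
  have hl : 0 < Real.log 2 := Real.log_pos (by norm_num)
  set L1 : ℝ := max L 1 with hL1
  have hL1p : 0 < L1 := lt_of_lt_of_le one_pos (le_max_right _ _)
  set K : ℝ := L1 / Real.log 2 with hK
  have hK0 : 0 < K := by positivity
  obtain ⟨N, hN, hstrong⟩ := strong (η := 1 / (2 * K)) (by positivity)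
  refine ⟨N * K * Real.log 2, by positivity, 1 / 4, by norm_num, ?_⟩
  intro k hk2 n hk hn A hhalf hbd
  rw [Set.mem_singleton_iff] at hk2
  subst hk2
  rcases A.eq_empty_or_nonempty with h0 | hA
  · subst h0
    have h1 : meas (∅ : Finset (Fin n → Fin 2)) = 0 := by simp [meas]
    refine ⟨fun _ => univ, ?_, ?_, ?_⟩
    · exact ⟨fun _ => ⟨0, hk⟩, Fintype.mem_piFinset.2 fun _ => mem_univ _⟩
    · rw [h1, Real.zero_rpow (by positivity)]
      unfold meas; positivity
    · rw [h1, mul_zero]
      positivity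
  have ha : (0 : ℝ) < A.card := by exact_mod_cast hA.card_pos
  have hα0 : 0 < meas A := by unfold meas; positivity
  have hm0 : 0 ≤ mBound A := by
    unfold mBound
    apply Real.sInf_nonneg
    rintro _ ⟨r, _, rfl⟩
    positivity
  set lam := Real.log (1 / meas A) with hlam
  have hloginv : lam = -Real.log (meas A) := by rw [hlam, one_div, Real.log_inv]
  have hlam0 : 0 ≤ lam := by
    rw [hlam]
    apply Real.log_nonneg
    rw [le_div_iff₀ hα0]; linarith
  have hn2 : lam ≤ n * Real.log 2 := by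
    have h1 : 1 / meas A ≤ 2 ^ n := by
      rw [div_le_iff₀ hα0]
      unfold meas
      have h2 : (1 : ℝ) ≤ A.card := by exact_mod_cast hA.card_pos
      have h3 : (2 : ℝ) ^ n * ((A.card : ℝ) / ((2 : ℕ) : ℝ) ^ n) = A.card := by
        push_cast
        field_simp
      rw [h3]; exact h2
    calc lam ≤ Real.log (2 ^ n) := Real.log_le_log (by positivity) h1
      _ = n * Real.log 2 := by rw [Real.log_pow]
  have hmb := Ent.mBound_le hk hA hhalf hn2
  have hsens : sens A / A.card ≤ K * lam := by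
    rw [div_le_iff₀ ha]
    calc sens A ≤ (edgeBoundary A).card := sens_le A
      _ ≤ L * mBound A := hbd
      _ ≤ L1 * mBound A := mul_le_mul_of_nonneg_right (le_max_left _ _) hm0
      _ ≤ L1 * (2 / Real.log 2 * (A.card / ((2 : ℕ) : ℝ)) * lam) :=
          mul_le_mul_of_nonneg_left hmb hL1p.le
      _ = K * lam * A.card := by
          rw [hK]; push_cast; field_simp
  obtain ⟨T, a, hT, hd⟩ := hstrong n A hA
  have hcard := card_subcube T a
  set s : ℝ := Real.exp (-(lam / 2)) with hs
  have hs0 : 0 < s := Real.exp_pos _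
  have hss : s * s = meas A := by
    rw [hs, ← Real.exp_add]
    have : -(lam / 2) + -(lam / 2) = Real.log (meas A) := by rw [hloginv]; ring
    rw [this, Real.exp_log hα0]
  have hs1 : s ≤ 4 / 5 := by
    by_contra hcon
    push Not at hcon
    nlinarith
  have hexp : s ≤ Real.exp (-(1 / (2 * K) * (sens A / A.card))) := by
    rw [hs]
    apply Real.exp_le_exp.2
    have h1 : 1 / (2 * K) * (sens A / A.card) ≤ 1 / (2 * K) * (K * lam) :=
      mul_le_mul_of_nonneg_left hsens (by positivity)
    have h2 : 1 / (2 * K) * (K * lam) = lam / 2 := by field_simp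
    linarith
  refine ⟨fun j => if j ∈ T then {a j} else (univ : Finset (Fin 2)), ?_, ?_, ?_⟩
  · rw [← pi_eq]
    exact ⟨a, by simp⟩
  · rw [← pi_eq]
    unfold meas
    rw [hcard]
    have h1 : ((2 : ℝ) ^ n / 2 ^ T.card) / ((2 : ℕ) : ℝ) ^ n = Real.exp (-(T.card * Real.log 2)) := by
      rw [Real.exp_neg, mul_comm, Real.exp_mul, Real.exp_log (by norm_num), Real.rpow_natCast]
      push_cast
      field_simp
    rw [h1]
    have h2 : ((A.card : ℝ) / ((2 : ℕ) : ℝ) ^ n) = meas A := rfl
    rw [h2, Real.rpow_def_of_pos hα0]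
    apply Real.exp_le_exp.2
    have h3 : (T.card : ℝ) ≤ N * (K * lam) := hT.trans (mul_le_mul_of_nonneg_left hsens hN.le)
    have h4 : (T.card : ℝ) * Real.log 2 ≤ N * (K * lam) * Real.log 2 :=
      mul_le_mul_of_nonneg_right h3 hl.le
    have h5 : Real.log (meas A) * (N * K * Real.log 2) = -(N * (K * lam) * Real.log 2) := by
      rw [hloginv]; ring
    rw [h5]
    linarith
  · rw [← pi_eq]
    have hinter : A ∩ (univ.filter fun x : Cube n => ∀ j ∈ T, x j = a j) =
        A.filter fun x => ∀ j ∈ T, x j = a j := by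
      ext x
      simp
    rw [hinter]
    have hcpos : (0 : ℝ) < ((univ.filter fun x : Cube n => ∀ j ∈ T, x j = a j).card : ℝ) := by
      rw [hcard]; positivity
    rw [le_div_iff₀ hcpos]
    refine le_trans ?_ hd
    refine mul_le_mul_of_nonneg_right (le_trans ?_ hexp) hcpos.le
    rw [← hss]
    nlinarith

end Pool.Agent.Grid.KK
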