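import Pool.Agent.Lib.MP_d0893a_co.KK.Step

/-!
# Query step (problem MP_d0893a_co)

Proof. For `b : Fin 2` let `w_b x = if x i = b then Q x else 0`, a piece for `insert i T`. By
minimality and `mass w_0 + mass w_1 = 1`: `F T Q ≤ F (insert i T) w_0 + F (insert i T) w_1`.
Costs: for `j ≠ i`, flips in direction `j` preserve `x i`, and `kap B 0 0 = 0`, so the two costs add
up to `cost B T Q - costj B Q i`. Entropies: with `M_b = mass w_b`,
`rent w_0 + rent w_1 = rent T Q - (∑_b M_b log M_b + log 2)`, and
`∑_b M_b log M_b + log 2 = DD Q {i} - DD Q ∅ ≤ ex (ss_i^2) ≤ costj B Q i` (`DD_step_le`, `ex_ss_le`).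
Also `p |insert i T| = p |T| + p`. So `costj B Q i ≤ p + costj B Q i / 2`.
-/

open Finset

namespace Pool.Agent.Grid.KK

variable {n : ℕ}

/-- half of the piece: the points with `x i = b` -/
private def hf (Q : Cube n → ℝ) (i : Fin n) (b : Fin 2) (x : Cube n) : ℝ :=
  if x i = b then Q x else 0

private theorem sum_hf (i : Fin n) (G : ℝ → ℝ) (hG : G 0 = 0) (Q : Cube n → ℝ) :
    ∑ x, G (hf Q i 0 x) + ∑ x, G (hf Q i 1 x) = ∑ x, G (Q x) := by
  rw [← Finset.sum_add_distrib]
  refine Finset.sum_congr rfl fun x _ => ?_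
  unfold hf
  have h : x i = 0 ∨ x i = 1 := by
    have := (x i).isLt
    rcases h : x i with ⟨v, hv⟩
    interval_cases v
    · left; rfl
    · right; rfl
  rcases h with h | h <;> simp [h, hG]

private theorem mass_hf (i : Fin n) (Q : Cube n → ℝ) :
    mass (hf Q i 0) + mass (hf Q i 1) = mass Q := by
  have := sum_hf i (fun t => t) rfl Q
  exact this

private theorem costj_hf {B : ℝ} (i j : Fin n) (hij : j ≠ i) (Q : Cube n → ℝ) :
    costj B (hf Q i 0) j + costj B (hf Q i 1) j = costj B Q j := by
  unfold costj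
  rw [← add_div, ← Finset.sum_add_distrib]
  congr 1
  refine Finset.sum_congr rfl fun x _ => ?_
  have h : x i = 0 ∨ x i = 1 := by
    have := (x i).isLt
    rcases h : x i with ⟨v, hv⟩
    interval_cases v
    · left; rfl
    · right; rfl
  have h2 : fl x j i = x i := fl_ne x hij.symm
  have h0 : kap B 0 0 = 0 := by simp [kap]
  unfold hf
  rcases h with h | h <;> simp [h, h2, h0]

private theorem adm_hf {A : Finset (Cube n)} {T : Finset (Fin n)} {Q : Cube n → ℝ}
    (hA : Adm A T Q) (i : Fin n) (b : Fin 2) : Adm A (insert i T) (hf Q i b) where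
  nonneg x := by
    unfold hf
    split_ifs
    · exact hA.nonneg x
    · exact le_rfl
  supp x hx := by
    unfold hf at hx
    split_ifs at hx with h
    · exact hA.supp x hx
    · exact absurd rfl hx
  const x y hx hy j hj := by
    unfold hf at hx hy
    split_ifs at hx with h1
    · split_ifs at hy with h2
      · rcases Finset.mem_insert.1 hj with rfl | hj
        · rw [h1, h2]
        · exact hA.const x y hx hy j hj
      · exact absurd rfl hy
    · exact absurd rfl hx

private theorem mg_single (Q : Cube n → ℝ) (i : Fin n) (x : Cube n) :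
    mg Q {i} x = mass (hf Q i (x i)) := by
  unfold mg mass hf
  refine Finset.sum_congr rfl fun y _ => ?_
  simp

private theorem DD_single (Q : Cube n → ℝ) (i : Fin n) :
    DD Q {i} = mass (hf Q i 0) * Real.log (mass (hf Q i 0)) +
      mass (hf Q i 1) * Real.log (mass (hf Q i 1)) + Real.log 2 := by
  have h1 : ex Q (fun x => Real.log (mg Q {i} x)) =
      mass (hf Q i 0) * Real.log (mass (hf Q i 0)) +
      mass (hf Q i 1) * Real.log (mass (hf Q i 1)) := by
    have e : ∀ b : Fin 2, mass (hf Q i b) * Real.log (mass (hf Q i b)) =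
        ∑ x, hf Q i b x * Real.log (mass (hf Q i b)) := by
      intro b
      rw [← Finset.sum_mul]
      rfl
    rw [e 0, e 1, ← Finset.sum_add_distrib]
    unfold ex
    refine Finset.sum_congr rfl fun x _ => ?_
    beta_reduce
    rw [mg_single]
    have h : x i = 0 ∨ x i = 1 := by
      have := (x i).isLt
      rcases h : x i with ⟨v, hv⟩
      interval_cases v
      · left; rfl
      · right; rfl
    rcases h with h | h
    · have h3 : hf Q i 0 x = Q x := by simp [hf, h]
      have h4 : hf Q i 1 x = 0 := by simp [hf, h]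
      rw [h3, h4, h]
      ring
    · have h3 : hf Q i 1 x = Q x := by simp [hf, h]
      have h4 : hf Q i 0 x = 0 := by simp [hf, h]
      rw [h3, h4, h]
      ring
  unfold DD
  rw [h1]
  simp

theorem costj_le {B p : ℝ} (hB : 1 ≤ B) {A : Finset (Cube n)} {T : Finset (Fin n)}
    {Q : Cube n → ℝ} (h : IsMin B p A T Q) {i : Fin n} (hi : i ∉ T) : costj B Q i ≤ 2 * p := by
  have hA := h.adm
  have h1 := h.mass_one
  have hm0 := h.min (insert i T) (hf Q i 0) (adm_hf hA i 0)
  have hm1 := h.min (insert i T) (hf Q i 1) (adm_hf hA i 1)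
  have hmass := mass_hf i Q
  rw [h1] at hmass
  -- masses
  set M0 := mass (hf Q i 0) with hM0
  set M1 := mass (hf Q i 1) with hM1
  -- costs
  have hT : Tᶜ = insert i (insert i T)ᶜ := by
    ext j
    simp only [Finset.mem_compl, Finset.mem_insert]
    constructor
    · intro hj
      by_cases hji : j = i
      · exact Or.inl hji
      · right
        rintro (h | h)
        · exact hji h
        · exact hj h
    · rintro (rfl | hj)
      · exact hi
      · exact fun hjT => hj (Or.inr hjT)
  have hiT : i ∉ (insert i T)ᶜ := by simp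
  have hc : cost B (insert i T) (hf Q i 0) + cost B (insert i T) (hf Q i 1) =
      cost B T Q - costj B Q i := by
    unfold cost
    rw [hT, Finset.sum_insert hiT, ← Finset.sum_add_distrib]
    have : ∑ j ∈ (insert i T)ᶜ, (costj B (hf Q i 0) j + costj B (hf Q i 1) j) =
        ∑ j ∈ (insert i T)ᶜ, costj B Q j := by
      refine Finset.sum_congr rfl fun j hj => ?_
      refine costj_hf i j ?_ Q
      rintro rfl
      exact hiT hj
    rw [this]
    ring
  -- entropies
  have hD := DD_step_le hA.nonneg h1 (J := ∅) (i := i) (by simp)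
  rw [DD_empty h1] at hD
  have hins : insert i (∅ : Finset (Fin n)) = {i} := rfl
  rw [hins, DD_single] at hD
  have hss := ex_ss_le hB hA.nonneg i
  have hlog : ∑ x, hf Q i 0 x * Real.log (hf Q i 0 x) + ∑ x, hf Q i 1 x * Real.log (hf Q i 1 x) =
      ∑ x, Q x * Real.log (Q x) := sum_hf i (fun t => t * Real.log t) (by simp) Q
  have hcard : ((Tᶜ.card : ℕ) : ℝ) = ((insert i T)ᶜ.card : ℝ) + 1 := by
    rw [hT, Finset.card_insert_of_notMem hiT]
    push_cast
    ring
  have hcard2 : (((insert i T).card : ℕ) : ℝ) = (T.card : ℝ) + 1 := by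
    rw [Finset.card_insert_of_notMem hi]
    push_cast
    ring
  have hr : rent (insert i T) (hf Q i 0) + rent (insert i T) (hf Q i 1) =
      rent T Q - (M0 * Real.log M0 + M1 * Real.log M1 + Real.log 2) := by
    unfold rent
    rw [← hM0, ← hM1, h1, hcard, ← hlog]
    have hM1' : M1 = 1 - M0 := by linarith
    simp only [Real.log_one, mul_zero, sub_zero, one_mul]
    have : M0 * (((insert i T)ᶜ.card : ℝ) * Real.log 2) +
        M1 * (((insert i T)ᶜ.card : ℝ) * Real.log 2) =
        ((insert i T)ᶜ.card : ℝ) * Real.log 2 := by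
      rw [← add_mul, hmass, one_mul]
    linarith
  have hFQ : F B p T Q * M0 + F B p T Q * M1 = F B p T Q := by
    rw [← mul_add, hmass, mul_one]
  have hp : p * ((T.card : ℝ) + 1) * M0 + p * ((T.card : ℝ) + 1) * M1 =
      p * ((T.card : ℝ) + 1) := by
    rw [← mul_add, hmass, mul_one]
  unfold F at hFQ hm0 hm1
  rw [h1] at hFQ hm0 hm1
  rw [hcard2, ← hM0] at hm0
  rw [hcard2, ← hM1] at hm1
  linarith

end Pool.Agent.Grid.KK
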