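import Pool.Agent.Lib.MP_d0893a_co.KK.Split
import Pool.Agent.Lib.MP_d0893a_co.KK.Energy
import Pool.Agent.Lib.MP_d0893a_co.KK.Query

/-!
# The KKL inequality of the minimising piece (problem MP_d0893a_co)

Proof. `G = cE Q (J.erase i) (hard B Q i)`, `b = ex G = ex hard ≤ costj ≤ 2p` (`ex_cE`, `ex_hard_le`,
`costj_le`). `log_sobolev` for `G`; by `energy_le`, `energy_zero` its right side is at most
`64 B ∑_{j ∈ J.erase i} (gg i J - gg i (J.erase j))` (note `(J.erase i).erase j = (J.erase j).erase i`);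
the term `j = i` of the claimed sum is `0` (`gg_erase`) if `i ∈ J`.
Left side: `ex G^2 ≤ ex G ≤ 2p < 1`, so `-log (ex G^2) ≥ log (1/(2p))` if `ex G^2 > 0` (if it is `0`
the claim is trivial: the right side is `≥ 0` by `gg_mono`, the left side is `≤ 0`), and
`G^2 log G^2 = -2 G (G log (1/G)) ≥ -G` since `z log (1/z) ≤ 1/e ≤ 1/2` on `[0,1]`.
-/

open Finset

namespace Pool.Agent.Grid.KK

variable {n : ℕ}

/-- `z^2 log z^2 ≥ -z` -/
private theorem neg_le_sq_log {z : ℝ} (hz : 0 ≤ z) : -z ≤ z ^ 2 * Real.log (z ^ 2) := by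
  rcases hz.eq_or_lt with h0 | h0
  · rw [← h0]; simp
  · have he : (2 : ℝ) < Real.exp 1 := by
      have := Real.exp_one_gt_d9
      linarith
    have he0 : (0 : ℝ) < Real.exp 1 := Real.exp_pos 1
    have h1 : Real.log (1 / (Real.exp 1 * z)) ≤ 1 / (Real.exp 1 * z) - 1 :=
      Real.log_le_sub_one_of_pos (by positivity)
    rw [one_div, Real.log_inv, Real.log_mul he0.ne' h0.ne', Real.log_exp] at h1
    have h2 : -Real.log z ≤ (Real.exp 1 * z)⁻¹ := by linarith
    have h3 : z * (-Real.log z) ≤ z * (Real.exp 1 * z)⁻¹ :=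
      mul_le_mul_of_nonneg_left h2 h0.le
    have h4 : z * (Real.exp 1 * z)⁻¹ = (Real.exp 1)⁻¹ := by
      field_simp
    have h5 : (Real.exp 1)⁻¹ ≤ 1 / 2 := by
      rw [one_div]
      exact inv_anti₀ (by norm_num) he.le
    have h6 : z * (-Real.log z) ≤ 1 / 2 := by linarith
    rw [Real.log_pow]
    push_cast
    nlinarith

theorem kkl {B p : ℝ} (hB : 4 ≤ B) (hp : 0 < p) (hp2 : p < 1 / 2) {A : Finset (Cube n)}
    {T : Finset (Fin n)} {Q : Cube n → ℝ} (h : IsMin B p A T Q) {i : Fin n} (hi : i ∉ T)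
    {J : Finset (Fin n)} (hJ : J ⊆ Tᶜ) :
    Real.log (1 / (2 * p)) * gg B Q i J - costj B Q i ≤
      64 * B * ∑ j ∈ J, (gg B Q i J - gg B Q i (J.erase j)) := by
  classical
  have hQ := h.adm.nonneg
  set G : Cube n → ℝ := cE Q (J.erase i) (hard B Q i) with hG
  have hG0 : ∀ x, 0 ≤ G x := fun x => cE_nonneg hQ _ (hard_nonneg B Q i) x
  have hG1 : ∀ x, G x ≤ 1 := fun x => cE_le_one hQ _ (hard_le_one B Q i) x
  have hgg : ex Q (fun x => G x ^ 2) = gg B Q i J := rfl
  have hterm : ∀ j ∈ J, 0 ≤ gg B Q i J - gg B Q i (J.erase j) := fun j _ =>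
    sub_nonneg.mpr (gg_mono B hQ i (Finset.erase_subset j J))
  have hcost : ex Q (hard B Q i) ≤ costj B Q i := ex_hard_le (by linarith) hQ i
  have hcost2 : costj B Q i ≤ 2 * p := costj_le (by linarith) h hi
  have hc0 : 0 ≤ costj B Q i := costj_nonneg (by linarith) hQ i
  have hggle : gg B Q i J ≤ 2 * p := (gg_le B hQ i J).trans (hcost.trans hcost2)
  -- the right side of the log-Sobolev inequality
  have hR : ∑ j ∈ Tᶜ, ex Q (fun x => (1 - hard B Q j x) * (G x - G (fl x j)) ^ 2) ≤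
      8 * ∑ j ∈ J, (gg B Q i J - gg B Q i (J.erase j)) := by
    have h1 : ∑ j ∈ Tᶜ, ex Q (fun x => (1 - hard B Q j x) * (G x - G (fl x j)) ^ 2) =
        ∑ j ∈ J, ex Q (fun x => (1 - hard B Q j x) * (G x - G (fl x j)) ^ 2) := by
      symm
      refine Finset.sum_subset hJ fun j _ hjJ => ?_
      have hj : j ∉ J.erase i := fun hj => hjJ (Finset.mem_of_mem_erase hj)
      simp only [ex]
      refine Finset.sum_eq_zero fun x _ => ?_
      rw [hG, energy_zero Q hj (hard B Q i) x]
      ring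
    rw [h1, Finset.mul_sum]
    refine Finset.sum_le_sum fun j hj => ?_
    by_cases hij : j = i
    · have h2 : ex Q (fun x => (1 - hard B Q j x) * (G x - G (fl x j)) ^ 2) = 0 := by
        simp only [ex]
        refine Finset.sum_eq_zero fun x _ => ?_
        have hj' : j ∉ J.erase i := by rw [hij]; exact Finset.notMem_erase i J
        rw [hG, energy_zero Q hj' (hard B Q i) x]
        ring
      rw [h2]
      have := hterm j hj
      linarith
    · have hj' : j ∈ J.erase i := Finset.mem_erase.mpr ⟨hij, hj⟩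
      have h2 := energy_le hB hQ hj' (hard B Q i)
      have h3 : (J.erase i).erase j = (J.erase j).erase i := Finset.erase_right_comm
      rw [h3] at h2
      exact h2
  have hLS := log_sobolev hB h hG0 hG1
  rw [hgg] at hLS
  have hfin : ex Q (fun x => G x ^ 2 * Real.log (G x ^ 2)) -
      gg B Q i J * Real.log (gg B Q i J) ≤
      64 * B * ∑ j ∈ J, (gg B Q i J - gg B Q i (J.erase j)) := by
    have h1 : 8 * B * ∑ j ∈ Tᶜ, ex Q (fun x => (1 - hard B Q j x) * (G x - G (fl x j)) ^ 2) ≤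
        8 * B * (8 * ∑ j ∈ J, (gg B Q i J - gg B Q i (J.erase j))) :=
      mul_le_mul_of_nonneg_left hR (by linarith)
    linarith
  refine le_trans ?_ hfin
  have hlow : -costj B Q i ≤ ex Q (fun x => G x ^ 2 * Real.log (G x ^ 2)) := by
    have h1 : ex Q (fun x => -G x) ≤ ex Q (fun x => G x ^ 2 * Real.log (G x ^ 2)) :=
      ex_mono hQ fun x _ => neg_le_sq_log (hG0 x)
    have h2 : ex Q (fun x => -G x) = -ex Q G := by
      simp only [ex, mul_neg, Finset.sum_neg_distrib]
    have h3 : ex Q G = ex Q (hard B Q i) := ex_cE hQ _ _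
    linarith
  have hlog : Real.log (1 / (2 * p)) * gg B Q i J ≤ -(gg B Q i J * Real.log (gg B Q i J)) := by
    have h0 : 0 ≤ gg B Q i J := gg_nonneg B hQ i J
    rcases h0.eq_or_lt with h1 | h1
    · rw [← h1]; simp
    · have h2 : Real.log (gg B Q i J) ≤ Real.log (2 * p) := Real.log_le_log h1 hggle
      rw [one_div, Real.log_inv]
      nlinarith
  linarith

end Pool.Agent.Grid.KK
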