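import Pool.Agent.Lib.MP_d0893a_co.KK.CE

/-!
# Entropy increments (problem MP_d0893a_co)

* `DD_step`: for `Q x ≠ 0`, `i ∉ J`: `mg Q (insert i J) x / mg Q J x = (1 + sg x i * pi x) / 2` with
  `pi = cE Q J (sg · i)`. So `DD (insert i J) - DD J = ex log (1 + sg x i * pi x) ≤ ex (sg x i * pi x)`
  `= ex (pi^2)` (`log (1+z) ≤ z`, `ex_mul_cE`).
* `cE_sg`: for `i ∉ J`, `cE J (sg · i) = cE J (fun y => sg y i * ss Q i y)`: in the numerators pair `y`
  with `fl y i`: both sums are `(1/2) ∑_{y ~ x} sg y i (Q y - Q (fl y i))`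
  (`(Q y + Q (fl y i)) * ss = Q y - Q (fl y i)` also when the sum of the weights is `0`, as `Q ≥ 0`).
* `DD_step_le`: `cE_sq_le`, `ex_cE`.
* `DD_step_le'`: `|pi| ≤ cE (hard) + cE (|ss| (1 - hard))` since `|ss| ≤ 1`; `(a+b)^2 ≤ 2a^2+2b^2`, and
  `(|ss| (1-hard))^2 = ss^2 (1-hard)` (`hard` is `0` or `1`).
* `ex_ss_le`, `ex_hard_le`, `ex_soft_le`: `ex_symm`, then edge by edge:
  `(a+b) ss^2 = (a-b)^2/(a+b)`.
* `DD_full`: for a piece of mass `1`, `mg Q Tᶜ x = Q x` if `Q x ≠ 0`.
* `DD_super_cost`: `DD J = ∑` of the increments along an enumeration of `J`.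
-/

open Finset

namespace Pool.Agent.Grid.KK

variable {n : ℕ}

theorem DD_empty {Q : Cube n → ℝ} (h1 : mass Q = 1) : DD Q ∅ = 0 := by
  have h2 : ∀ x, mg Q ∅ x = 1 := by
    intro x
    unfold mg
    rw [← h1]
    unfold mass
    refine Finset.sum_congr rfl fun y _ => if_pos fun j hj => absurd hj (Finset.notMem_empty j)
  unfold DD ex
  simp [h2]

/-- the marginal on one more coordinate -/
private theorem mg_insert {Q : Cube n → ℝ} {J : Finset (Fin n)} {i : Fin n} (x : Cube n)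
    (hx : mg Q J x ≠ 0) :
    mg Q (insert i J) x = mg Q J x * (1 + sg x i * cE Q J (fun y => sg y i) x) / 2 := by
  have h1 : mg Q J x * cE Q J (fun y => sg y i) x =
      ∑ y, if ∀ j ∈ J, y j = x j then Q y * sg y i else 0 := by
    unfold cE
    field_simp
  have h2 : mg Q J x * (1 + sg x i * cE Q J (fun y => sg y i) x) =
      mg Q J x + sg x i * (mg Q J x * cE Q J (fun y => sg y i) x) := by ring
  rw [h2, h1]
  have h3 : (mg Q J x + sg x i * ∑ y, if ∀ j ∈ J, y j = x j then Q y * sg y i else 0) / 2 =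
      ∑ y, ((if ∀ j ∈ J, y j = x j then Q y else 0) +
        sg x i * (if ∀ j ∈ J, y j = x j then Q y * sg y i else 0)) / 2 := by
    rw [← Finset.sum_div, Finset.sum_add_distrib, ← Finset.mul_sum]
    rfl
  rw [h3]
  unfold mg
  refine Finset.sum_congr rfl fun y _ => ?_
  by_cases hy : ∀ j ∈ J, y j = x j
  · rw [if_pos hy, if_pos hy]
    by_cases hi : y i = x i
    · rw [if_pos]
      · have h4 : sg y i = sg x i := by unfold sg; rw [hi]
        have h5 := sg_sq x i
        rw [h4]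
        linear_combination (-(Q y) / 2) * h5
      · intro j hj
        rcases Finset.mem_insert.1 hj with rfl | hj
        · exact hi
        · exact hy j hj
    · rw [if_neg]
      · have h4 : sg y i = - sg x i := by
          have h6 : y i = fl x i i := (eq_or_fl x y i).resolve_left hi
          have h7 : sg y i = sg (fl x i) i := by unfold sg; rw [h6]
          rw [h7, sg_fl]
        have h5 := sg_sq x i
        rw [h4]
        linear_combination (Q y / 2) * h5
      · intro h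
        exact hi (h i (Finset.mem_insert_self i J))
  · rw [if_neg hy, if_neg hy, if_neg, mul_zero, add_zero, zero_div]
    intro h
    exact hy fun j hj => h j (Finset.mem_insert_of_mem hj)

theorem DD_step {Q : Cube n → ℝ} (hQ : ∀ x, 0 ≤ Q x) (h1 : mass Q = 1) {J : Finset (Fin n)}
    {i : Fin n} (hi : i ∉ J) :
    DD Q (insert i J) - DD Q J ≤ ex Q (fun x => cE Q J (fun y => sg y i) x ^ 2) := by
  have key : ex Q (fun x => Real.log (mg Q (insert i J) x)) ≤
      ex Q (fun x => Real.log (mg Q J x) + cE Q J (fun y => sg y i) x * sg x i -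
        Real.log 2) := by
    refine ex_mono hQ fun x hx => ?_
    have h2 : 0 < Q x := lt_of_le_of_ne (hQ x) (Ne.symm hx)
    have h3 : 0 < mg Q J x := h2.trans_le (le_mg hQ J x)
    have h4 : 0 < mg Q (insert i J) x := h2.trans_le (le_mg hQ _ x)
    have h5 := mg_insert (i := i) x h3.ne'
    have h6 : 0 < 1 + sg x i * cE Q J (fun y => sg y i) x := by
      by_contra h7
      have h8 : mg Q J x * (1 + sg x i * cE Q J (fun y => sg y i) x) ≤ 0 :=
        mul_nonpos_of_nonneg_of_nonpos h3.le (not_lt.1 h7)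
      linarith
    rw [h5, Real.log_div (mul_pos h3 h6).ne' (by norm_num), Real.log_mul h3.ne' h6.ne']
    have h7 := Real.log_le_sub_one_of_pos h6
    linarith
  have h2 : ex Q (fun x => Real.log (mg Q J x) + cE Q J (fun y => sg y i) x * sg x i -
        Real.log 2) = ex Q (fun x => Real.log (mg Q J x)) +
        ex Q (fun x => cE Q J (fun y => sg y i) x * sg x i) - Real.log 2 := by
    have h3 : Real.log 2 = ∑ x, Q x * Real.log 2 := by
      rw [← Finset.sum_mul]
      unfold mass at h1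
      rw [h1, one_mul]
    unfold ex
    conv_rhs => rw [h3]
    rw [← Finset.sum_add_distrib, ← Finset.sum_sub_distrib]
    refine Finset.sum_congr rfl fun x _ => ?_
    ring
  have h3 := ex_mul_cE hQ J (f := cE Q J (fun y => sg y i)) (fun x y h => cE_congr Q _ h)
    (fun y => sg y i)
  have h4 : ex Q (fun x => cE Q J (fun y => sg y i) x ^ 2) =
      ex Q (fun x => cE Q J (fun y => sg y i) x * cE Q J (fun y => sg y i) x) := by
    unfold ex
    refine Finset.sum_congr rfl fun x _ => ?_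
    ring
  unfold DD
  rw [Finset.card_insert_of_notMem hi, h4, h3]
  push_cast
  linarith

/-- symmetrisation of a sum -/
private theorem sum_symm (g : Cube n → ℝ) (i : Fin n) :
    ∑ y, g y = ∑ y, (g y + g (fl y i)) / 2 := by
  rw [← Finset.sum_div, Finset.sum_add_distrib, sum_fl g i]
  ring

private theorem mul_ss {Q : Cube n → ℝ} (hQ : ∀ x, 0 ≤ Q x) (i : Fin n) (y : Cube n) :
    (Q y + Q (fl y i)) * ss Q i y = Q y - Q (fl y i) := by
  unfold ss
  rcases (add_nonneg (hQ y) (hQ (fl y i))).eq_or_lt with h | h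
  · have h1 : Q y = 0 := by linarith [hQ y, hQ (fl y i)]
    have h2 : Q (fl y i) = 0 := by linarith [hQ y, hQ (fl y i)]
    rw [h1, h2]
    simp
  · field_simp

theorem cE_sg {Q : Cube n → ℝ} (hQ : ∀ x, 0 ≤ Q x) {J : Finset (Fin n)} {i : Fin n} (hi : i ∉ J)
    (x : Cube n) :
    cE Q J (fun y => sg y i) x = cE Q J (fun y => sg y i * ss Q i y) x := by
  unfold cE
  congr 1
  rw [sum_symm (fun y => if ∀ j ∈ J, y j = x j then Q y * sg y i else 0) i,
    sum_symm (fun y => if ∀ j ∈ J, y j = x j then Q y * (sg y i * ss Q i y) else 0) i]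
  refine Finset.sum_congr rfl fun y _ => ?_
  have h1 : (∀ j ∈ J, fl y i j = x j) ↔ ∀ j ∈ J, y j = x j := by
    have h2 : ∀ j ∈ J, fl y i j = y j := fun j hj =>
      fl_ne y (fun h => hi (h ▸ hj))
    constructor
    · intro h j hj
      rw [← h2 j hj]
      exact h j hj
    · intro h j hj
      rw [h2 j hj]
      exact h j hj
  simp only [h1]
  by_cases hy : ∀ j ∈ J, y j = x j
  · rw [if_pos hy, if_pos hy, if_pos hy, if_pos hy, sg_fl, ss_fl]
    have h3 := mul_ss hQ i y
    linear_combination (- sg y i / 2) * h3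
  · rw [if_neg hy, if_neg hy, if_neg hy, if_neg hy]

theorem DD_step_le {Q : Cube n → ℝ} (hQ : ∀ x, 0 ≤ Q x) (h1 : mass Q = 1) {J : Finset (Fin n)}
    {i : Fin n} (hi : i ∉ J) :
    DD Q (insert i J) - DD Q J ≤ ex Q (fun x => ss Q i x ^ 2) := by
  refine (DD_step hQ h1 hi).trans ?_
  rw [← ex_cE hQ J (fun x => ss Q i x ^ 2)]
  refine ex_mono hQ fun x _ => ?_
  rw [cE_sg hQ hi]
  refine (cE_sq_le hQ J _ x).trans (le_of_eq ?_)
  congr 1
  funext y
  rw [mul_pow, sg_sq, one_mul]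

private theorem abs_ss_le {Q : Cube n → ℝ} (hQ : ∀ x, 0 ≤ Q x) (i : Fin n) (y : Cube n) :
    |ss Q i y| ≤ 1 := by
  unfold ss
  rw [abs_div]
  refine div_le_one_of_le₀ ?_ (abs_nonneg _)
  have h1 := hQ y
  have h2 := hQ (fl y i)
  rw [abs_of_nonneg (add_nonneg h1 h2), abs_le]
  constructor <;> linarith

theorem DD_step_le' {Q : Cube n → ℝ} (hQ : ∀ x, 0 ≤ Q x) (h1 : mass Q = 1) (B : ℝ)
    {J : Finset (Fin n)} {i : Fin n} (hi : i ∉ J) :
    DD Q (insert i J) - DD Q J ≤
      2 * gg B Q i J + 2 * ex Q (fun x => ss Q i x ^ 2 * (1 - hard B Q i x)) := by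
  refine (DD_step hQ h1 hi).trans ?_
  have h2 : ∀ x, |sg x i * ss Q i x| ≤ hard B Q i x + |ss Q i x| * (1 - hard B Q i x) := by
    intro x
    have h3 : |sg x i| = 1 := by
      unfold sg
      split_ifs <;> norm_num
    rw [abs_mul, h3, one_mul]
    have h4 := abs_ss_le hQ i x
    have h5 := hard_nonneg B Q i x
    nlinarith
  have h3 : ∀ x, cE Q J (fun y => sg y i) x ^ 2 ≤ 2 * cE Q (J.erase i) (hard B Q i) x ^ 2 +
      2 * cE Q J (fun y => |ss Q i y| * (1 - hard B Q i y)) x ^ 2 := by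
    intro x
    rw [cE_sg hQ hi, Finset.erase_eq_of_notMem hi]
    have h4 := abs_cE_le hQ J h2 x
    rw [cE_add] at h4
    have h5 : cE Q J (fun y => sg y i * ss Q i y) x ^ 2 ≤
        (cE Q J (hard B Q i) x + cE Q J (fun y => |ss Q i y| * (1 - hard B Q i y)) x) ^ 2 :=
      sq_le_sq' (by linarith [neg_abs_le (cE Q J (fun y => sg y i * ss Q i y) x)])
        ((le_abs_self _).trans h4)
    nlinarith [sq_nonneg (cE Q J (hard B Q i) x -
      cE Q J (fun y => |ss Q i y| * (1 - hard B Q i y)) x)]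
  refine (ex_mono hQ fun x _ => h3 x).trans ?_
  have h4 : ex Q (fun x => 2 * cE Q (J.erase i) (hard B Q i) x ^ 2 +
      2 * cE Q J (fun y => |ss Q i y| * (1 - hard B Q i y)) x ^ 2) =
      2 * gg B Q i J + 2 * ex Q (fun x => cE Q J (fun y => |ss Q i y| *
        (1 - hard B Q i y)) x ^ 2) := by
    unfold gg ex
    rw [Finset.mul_sum, Finset.mul_sum, ← Finset.sum_add_distrib]
    refine Finset.sum_congr rfl fun x _ => ?_
    ring
  rw [h4]
  have h5 : ex Q (fun x => cE Q J (fun y => |ss Q i y| * (1 - hard B Q i y)) x ^ 2) ≤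
      ex Q (fun x => ss Q i x ^ 2 * (1 - hard B Q i x)) := by
    rw [← ex_cE hQ J (fun x => ss Q i x ^ 2 * (1 - hard B Q i x))]
    refine ex_mono hQ fun x _ => (cE_sq_le hQ J _ x).trans (le_of_eq ?_)
    congr 1
    funext y
    rw [mul_pow, sq_abs]
    congr 1
    unfold hard
    split_ifs <;> norm_num
  linarith

theorem kap_nonneg {B a b : ℝ} (hB : 0 ≤ B) (ha : 0 ≤ a) (hb : 0 ≤ b) : 0 ≤ kap B a b := by
  have h1 : 0 ≤ a + b := add_nonneg ha hb
  exact le_min h1 (div_nonneg (mul_nonneg hB (sq_nonneg _)) h1)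

theorem costj_nonneg {B : ℝ} (hB : 0 ≤ B) {Q : Cube n → ℝ} (hQ : ∀ x, 0 ≤ Q x) (i : Fin n) :
    0 ≤ costj B Q i := by
  unfold costj
  exact div_nonneg (Finset.sum_nonneg fun x _ => kap_nonneg hB (hQ _) (hQ _)) (by norm_num)

/-- one edge, all relative differences -/
private theorem edge_ss_le {B : ℝ} (hB : 1 ≤ B) {a b : ℝ} (ha : 0 ≤ a) (hb : 0 ≤ b) :
    (a + b) * ((a - b) / (a + b)) ^ 2 ≤ kap B a b := by
  rcases (add_nonneg ha hb).eq_or_lt with h | h
  · rw [← h]
    simp only [zero_mul]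
    exact kap_nonneg (by linarith) ha hb
  · have e : (a + b) * ((a - b) / (a + b)) ^ 2 = (a - b) ^ 2 / (a + b) := by
      field_simp
    rw [e]
    refine le_min ?_ ?_
    · rw [div_le_iff₀ h]
      nlinarith [mul_nonneg ha hb]
    · exact div_le_div_of_nonneg_right (by nlinarith [sq_nonneg (a - b)]) h.le

/-- one edge, hard -/
private theorem edge_hard_le {B : ℝ} (hB : 0 < B) {a b : ℝ} (ha : 0 ≤ a) (hb : 0 ≤ b) :
    (a + b) * (if (a + b) ^ 2 ≤ B * (a - b) ^ 2 then (1 : ℝ) else 0) ≤ kap B a b := by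
  split_ifs with hh
  · rcases (add_nonneg ha hb).eq_or_lt with h | h
    · rw [← h]
      simp only [zero_mul]
      exact kap_nonneg hB.le ha hb
    · rw [mul_one]
      refine le_min le_rfl ?_
      rw [le_div_iff₀ h]
      nlinarith
  · rw [mul_zero]
    exact kap_nonneg hB.le ha hb

/-- one edge, soft -/
private theorem edge_soft_le {B : ℝ} (hB : 0 < B) {a b : ℝ} (ha : 0 ≤ a) (hb : 0 ≤ b) :
    (a + b) * (((a - b) / (a + b)) ^ 2 *
      (1 - (if (a + b) ^ 2 ≤ B * (a - b) ^ 2 then (1 : ℝ) else 0))) ≤ kap B a b / B := by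
  split_ifs with hh
  · simp only [sub_self, mul_zero]
    exact div_nonneg (kap_nonneg hB.le ha hb) hB.le
  · rcases (add_nonneg ha hb).eq_or_lt with h | h
    · rw [← h]
      simp only [zero_mul]
      exact div_nonneg (kap_nonneg hB.le ha hb) hB.le
    · have e : (a + b) * (((a - b) / (a + b)) ^ 2 * (1 - 0)) = (a - b) ^ 2 / (a + b) := by
        field_simp
        ring
      rw [e, le_div_iff₀ hB]
      refine le_min ?_ (le_of_eq (by ring))
      rw [div_mul_eq_mul_div, div_le_iff₀ h]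
      push Not at hh
      nlinarith

theorem ex_ss_le {B : ℝ} (hB : 1 ≤ B) {Q : Cube n → ℝ} (hQ : ∀ x, 0 ≤ Q x) (i : Fin n) :
    ex Q (fun x => ss Q i x ^ 2) ≤ costj B Q i := by
  have hs : ∀ x, ss Q i (fl x i) ^ 2 = ss Q i x ^ 2 := fun x => by rw [ss_fl, neg_sq]
  rw [ex_symm Q i (h := fun x => ss Q i x ^ 2) hs]
  unfold costj
  refine div_le_div_of_nonneg_right (Finset.sum_le_sum fun x _ => ?_) (by norm_num)
  exact edge_ss_le hB (hQ _) (hQ _)

theorem ex_hard_le {B : ℝ} (hB : 0 < B) {Q : Cube n → ℝ} (hQ : ∀ x, 0 ≤ Q x) (i : Fin n) :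
    ex Q (hard B Q i) ≤ costj B Q i := by
  rw [ex_symm Q i (h := hard B Q i) (fun x => hard_fl B Q x i)]
  unfold costj
  refine div_le_div_of_nonneg_right (Finset.sum_le_sum fun x _ => ?_) (by norm_num)
  exact edge_hard_le hB (hQ _) (hQ _)

theorem ex_soft_le {B : ℝ} (hB : 0 < B) {Q : Cube n → ℝ} (hQ : ∀ x, 0 ≤ Q x) (i : Fin n) :
    ex Q (fun x => ss Q i x ^ 2 * (1 - hard B Q i x)) ≤ costj B Q i / B := by
  have hs : ∀ x, ss Q i (fl x i) ^ 2 * (1 - hard B Q i (fl x i)) =
      ss Q i x ^ 2 * (1 - hard B Q i x) := fun x => by rw [ss_fl, neg_sq, hard_fl]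
  rw [ex_symm Q i (h := fun x => ss Q i x ^ 2 * (1 - hard B Q i x)) hs]
  unfold costj
  rw [div_right_comm, Finset.sum_div _ _ B]
  refine div_le_div_of_nonneg_right (Finset.sum_le_sum fun x _ => ?_) (by norm_num)
  exact edge_soft_le hB (hQ _) (hQ _)

theorem gg_nonneg (B : ℝ) {Q : Cube n → ℝ} (hQ : ∀ x, 0 ≤ Q x) (i : Fin n) (J : Finset (Fin n)) :
    0 ≤ gg B Q i J := by
  unfold gg ex
  exact Finset.sum_nonneg fun x _ => mul_nonneg (hQ x) (sq_nonneg _)

theorem gg_le (B : ℝ) {Q : Cube n → ℝ} (hQ : ∀ x, 0 ≤ Q x) (i : Fin n) (J : Finset (Fin n)) :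
    gg B Q i J ≤ ex Q (hard B Q i) := by
  unfold gg
  rw [← ex_cE hQ (J.erase i) (hard B Q i)]
  refine ex_mono hQ fun x _ => ?_
  have h0 := cE_nonneg hQ (J.erase i) (hard_nonneg B Q i) x
  have h1 := cE_le_one hQ (J.erase i) (hard_le_one B Q i) x
  nlinarith

theorem gg_mono (B : ℝ) {Q : Cube n → ℝ} (hQ : ∀ x, 0 ≤ Q x) (i : Fin n) {J J' : Finset (Fin n)}
    (h : J ⊆ J') : gg B Q i J ≤ gg B Q i J' := by
  unfold gg
  exact ex_cE_sq_mono hQ (Finset.erase_subset_erase i h) _

theorem gg_erase (B : ℝ) (Q : Cube n → ℝ) (i : Fin n) (J : Finset (Fin n)) :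
    gg B Q i (J.erase i) = gg B Q i J := by
  unfold gg
  rw [Finset.erase_idem]

theorem DD_full {A : Finset (Cube n)} {T : Finset (Fin n)} {Q : Cube n → ℝ} (hA : Adm A T Q)
    (h1 : mass Q = 1) : DD Q Tᶜ = rent T Q := by
  have hmg : ∀ x, Q x ≠ 0 → mg Q Tᶜ x = Q x := by
    intro x hx
    unfold mg
    rw [Finset.sum_eq_single x]
    · simp
    · intro y _ hyx
      by_cases hy : Q y = 0
      · simp [hy]
      · rw [if_neg]
        intro hJ
        apply hyx
        funext j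
        by_cases hj : j ∈ T
        · exact hA.const y x hy hx j hj
        · exact hJ j (by simpa using hj)
    · intro h
      exact absurd (Finset.mem_univ x) h
  unfold DD rent ex
  have h2 : ∑ x, Q x * Real.log (mg Q Tᶜ x) = ∑ x, Q x * Real.log (Q x) := by
    refine Finset.sum_congr rfl fun x _ => ?_
    by_cases hx : Q x = 0
    · simp [hx]
    · rw [hmg x hx]
  rw [h2, h1]
  simp

theorem DD_le_sum {Q : Cube n → ℝ} (hQ : ∀ x, 0 ≤ Q x) (h1 : mass Q = 1) (J : Finset (Fin n)) :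
    DD Q J ≤ ∑ i ∈ J, ex Q (fun x => ss Q i x ^ 2) := by
  induction J using Finset.induction_on with
  | empty => simp [DD_empty h1]
  | insert i J hi ih =>
    rw [Finset.sum_insert hi]
    have h2 := DD_step_le hQ h1 hi
    linarith

/-- relative entropy is at most the cost -/
theorem rent_le_cost {B : ℝ} (hB : 1 ≤ B) {A : Finset (Cube n)} {T : Finset (Fin n)}
    {Q : Cube n → ℝ} (hA : Adm A T Q) (h1 : mass Q = 1) : rent T Q ≤ cost B T Q := by
  rw [← DD_full hA h1]
  refine (DD_le_sum hA.nonneg h1 Tᶜ).trans ?_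
  unfold cost
  exact Finset.sum_le_sum fun i _ => ex_ss_le hB hA.nonneg i

end Pool.Agent.Grid.KK
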