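import Pool.Agent.Lib.MP_d0893a_co.KK.Edge
import Pool.Agent.Lib.MP_d0893a_co.KK.Step

/-!
# Split step: log-Sobolev inequality of the minimising piece (problem MP_d0893a_co)

Proof. `w₁ = (G^2/2) Q`, `w₀ = (1 - G^2/2) Q` are pieces for `T` with masses adding to `1`, so
`F T Q ≤ F T w₁ + F T w₀`, i.e. `(rent w₁ + rent w₀ - rent Q)/2 ≤ cost w₁ + cost w₀ - cost Q`.
Right side: `kap_split` for every edge in the directions `j ∉ T`; after `ex_symm` (the function
`(1 - hard) (G x - G (fl x j))^2` is invariant under the flip of `j`) it is at most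
`2 B ∑_{j ∉ T} ex ((1 - hard_j) (G x - G (fl x j))^2)`.
Left side: with `g = G^2/2`, `m = ex g`, `rent w₁ + rent w₀ - rent Q = ex (g log (g/m)) +
ex ((1-g) log ((1-g)/(1-m))) ≥ ex (g log (g/m))` (the second is `≥ 0` since
`y log (y/z) ≥ y - z`), and `ex (g log g) - m log m = (1/2)(ex (G^2 log G^2) - ex G^2 log ex G^2)`.
-/

open Finset

namespace Pool.Agent.Grid.KK

variable {n : ℕ}

/-- `y log z + y - z ≤ y log y` -/
private theorem ylog_ge {y z : ℝ} (hy : 0 < y) (hz : 0 < z) :
    y * Real.log z + (y - z) ≤ y * Real.log y := by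
  have h := Real.log_le_sub_one_of_pos (div_pos hz hy)
  rw [Real.log_div hz.ne' hy.ne'] at h
  have h2 : y * (Real.log z - Real.log y) ≤ y * (z / y - 1) :=
    mul_le_mul_of_nonneg_left h hy.le
  have h3 : y * (z / y - 1) = z - y := by
    field_simp
  nlinarith

private theorem point_split {g q : ℝ} (hg0 : 0 ≤ g) (hg1 : g ≤ 1 / 2) :
    g * q * Real.log (g * q) + (1 - g) * q * Real.log ((1 - g) * q) - q * Real.log q =
      q * (g * Real.log g) + q * ((1 - g) * Real.log (1 - g)) := by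
  rcases eq_or_ne q 0 with h | h
  · simp [h]
  · have h1 : (1 - g) ≠ 0 := by
      have : (0 : ℝ) < 1 - g := by linarith
      exact this.ne'
    rw [Real.log_mul h1 h]
    rcases eq_or_ne g 0 with h0 | h0
    · simp [h0]
    · rw [Real.log_mul h0 h]
      ring

private theorem half_log (G : ℝ) :
    G ^ 2 / 2 * Real.log (G ^ 2 / 2) =
      (1 / 2) * (G ^ 2 * Real.log (G ^ 2)) - (Real.log 2 / 2) * G ^ 2 := by
  rcases eq_or_ne (G ^ 2) 0 with h | h
  · simp [h]
  · rw [Real.log_div h (by norm_num)]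
    ring

private theorem half_log' (s : ℝ) :
    s / 2 * Real.log (s / 2) = (1 / 2) * (s * Real.log s) - (Real.log 2 / 2) * s := by
  rcases eq_or_ne s 0 with h | h
  · simp [h]
  · rw [Real.log_div h (by norm_num)]
    ring

theorem log_sobolev {B p : ℝ} (hB : 4 ≤ B) {A : Finset (Cube n)} {T : Finset (Fin n)}
    {Q : Cube n → ℝ} (h : IsMin B p A T Q) {G : Cube n → ℝ} (h0 : ∀ x, 0 ≤ G x)
    (h1 : ∀ x, G x ≤ 1) :
    ex Q (fun x => G x ^ 2 * Real.log (G x ^ 2)) -
        ex Q (fun x => G x ^ 2) * Real.log (ex Q (fun x => G x ^ 2)) ≤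
      8 * B * ∑ j ∈ Tᶜ, ex Q (fun x => (1 - hard B Q j x) * (G x - G (fl x j)) ^ 2) := by
  have hQ : ∀ x, 0 ≤ Q x := h.adm.nonneg
  have hG2 : ∀ x, 0 ≤ G x ^ 2 / 2 := fun x => by positivity
  have hG2' : ∀ x, G x ^ 2 / 2 ≤ 1 / 2 := fun x => by nlinarith [h0 x, h1 x]
  set w1 : Cube n → ℝ := fun x => G x ^ 2 / 2 * Q x with hw1
  set w0 : Cube n → ℝ := fun x => (1 - G x ^ 2 / 2) * Q x with hw0
  have ad1 : Adm A T w1 := by
    refine ⟨fun x => mul_nonneg (hG2 x) (hQ x), fun x hx => h.adm.supp x ?_, fun x y hx hy => ?_⟩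
    · exact right_ne_zero_of_mul hx
    · exact h.adm.const x y (right_ne_zero_of_mul hx) (right_ne_zero_of_mul hy)
  have ad0 : Adm A T w0 := by
    refine ⟨fun x => mul_nonneg (by linarith [hG2' x]) (hQ x), fun x hx => h.adm.supp x ?_,
      fun x y hx hy => ?_⟩
    · exact right_ne_zero_of_mul hx
    · exact h.adm.const x y (right_ne_zero_of_mul hx) (right_ne_zero_of_mul hy)
  have hm : mass w1 + mass w0 = 1 := by
    rw [← h.mass_one]
    simp only [mass, hw1, hw0, ← Finset.sum_add_distrib]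
    exact Finset.sum_congr rfl fun x _ => by ring
  have k1 := h.min T w1 ad1
  have k0 := h.min T w0 ad0
  have kk : F B p T Q ≤ F B p T w1 + F B p T w0 := by
    have : F B p T Q * mass w1 + F B p T Q * mass w0 = F B p T Q := by
      rw [← mul_add, hm, mul_one]
    linarith
  -- the cost side
  have hcost : cost B T w1 + cost B T w0 - cost B T Q ≤
      2 * B * ∑ j ∈ Tᶜ, ex Q (fun x => (1 - hard B Q j x) * (G x - G (fl x j)) ^ 2) := by
    unfold cost
    rw [← Finset.sum_add_distrib, ← Finset.sum_sub_distrib, Finset.mul_sum]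
    refine Finset.sum_le_sum fun j _ => ?_
    have hinv : ∀ x, (fun x => (1 - hard B Q j x) * (G x - G (fl x j)) ^ 2) (fl x j) =
        (fun x => (1 - hard B Q j x) * (G x - G (fl x j)) ^ 2) x := by
      intro x
      simp only [hard_fl, fl_fl]
      ring
    rw [ex_symm Q j hinv]
    unfold costj
    rw [← add_div, ← sub_div, ← Finset.sum_add_distrib, ← Finset.sum_sub_distrib,
      ← mul_div_assoc, Finset.mul_sum]
    refine div_le_div_of_nonneg_right (Finset.sum_le_sum fun x _ => ?_) (by norm_num)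
    have := kap_split hB (hQ x) (hQ (fl x j)) (h0 x) (h1 x) (h0 (fl x j)) (h1 (fl x j))
    simp only [hw1, hw0]
    unfold hard
    have e : 2 * B * ((Q x + Q (fl x j)) * ((1 - if (Q x + Q (fl x j)) ^ 2 ≤
        B * (Q x - Q (fl x j)) ^ 2 then 1 else 0) * (G x - G (fl x j)) ^ 2)) =
        2 * B * ((Q x + Q (fl x j)) * ((1 - if (Q x + Q (fl x j)) ^ 2 ≤
        B * (Q x - Q (fl x j)) ^ 2 then (1 : ℝ) else 0) * (G x - G (fl x j)) ^ 2)) := rfl
    linarith
  -- the entropy side
  set m := mass w1 with hmdef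
  have hm0 : mass w0 = 1 - m := by linarith
  have hmle : m ≤ 1 / 2 := by
    have : m ≤ ∑ x, (1 / 2) * Q x :=
      Finset.sum_le_sum fun x _ => mul_le_mul_of_nonneg_right (hG2' x) (hQ x)
    rw [← Finset.mul_sum] at this
    have e : ∑ x, Q x = 1 := h.mass_one
    rw [e] at this
    linarith
  have hrent : rent T w1 + rent T w0 - rent T Q =
      (ex Q (fun x => G x ^ 2 / 2 * Real.log (G x ^ 2 / 2)) - m * Real.log m) +
      (ex Q (fun x => (1 - G x ^ 2 / 2) * Real.log (1 - G x ^ 2 / 2)) -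
        (1 - m) * Real.log (1 - m)) := by
    unfold rent
    rw [h.mass_one, hm0, ← hmdef]
    have e : ∑ x, w1 x * Real.log (w1 x) + ∑ x, w0 x * Real.log (w0 x) -
        ∑ x, Q x * Real.log (Q x) =
        ex Q (fun x => G x ^ 2 / 2 * Real.log (G x ^ 2 / 2)) +
        ex Q (fun x => (1 - G x ^ 2 / 2) * Real.log (1 - G x ^ 2 / 2)) := by
      unfold ex
      rw [← Finset.sum_add_distrib, ← Finset.sum_sub_distrib, ← Finset.sum_add_distrib]
      exact Finset.sum_congr rfl fun x _ => point_split (hG2 x) (hG2' x)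
    rw [Real.log_one]
    linarith
  have hm1 : ex Q (fun x => G x ^ 2) / 2 = m := by
    rw [hmdef]
    unfold ex mass
    rw [Finset.sum_div]
    exact Finset.sum_congr rfl fun x _ => by simp only [hw1]; ring
  have hsecond : 0 ≤ ex Q (fun x => (1 - G x ^ 2 / 2) * Real.log (1 - G x ^ 2 / 2)) -
        (1 - m) * Real.log (1 - m) := by
    have e1 : ∑ x, Q x * ((1 - G x ^ 2 / 2) * Real.log (1 - m) + ((1 - G x ^ 2 / 2) - (1 - m))) =
        (1 - m) * Real.log (1 - m) := by
      have e2 : ∑ x, Q x * (1 - G x ^ 2 / 2) = 1 - m := by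
        rw [← hm0]
        unfold mass
        exact Finset.sum_congr rfl fun x _ => by simp only [hw0]; ring
      have e3 : ∑ x, Q x = 1 := h.mass_one
      calc ∑ x, Q x * ((1 - G x ^ 2 / 2) * Real.log (1 - m) + ((1 - G x ^ 2 / 2) - (1 - m)))
          = ∑ x, (Q x * (1 - G x ^ 2 / 2) * (Real.log (1 - m) + 1) - (1 - m) * Q x) :=
            Finset.sum_congr rfl fun x _ => by ring
        _ = (1 - m) * Real.log (1 - m) := by
            rw [Finset.sum_sub_distrib, ← Finset.sum_mul, ← Finset.mul_sum, e2, e3]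
            ring
    rw [sub_nonneg, ← e1]
    unfold ex
    refine Finset.sum_le_sum fun x _ => mul_le_mul_of_nonneg_left ?_ (hQ x)
    exact ylog_ge (by linarith [hG2' x]) (by linarith)
  have hfirst : ex Q (fun x => G x ^ 2 / 2 * Real.log (G x ^ 2 / 2)) - m * Real.log m =
      (1 / 2) * (ex Q (fun x => G x ^ 2 * Real.log (G x ^ 2)) -
        ex Q (fun x => G x ^ 2) * Real.log (ex Q (fun x => G x ^ 2))) := by
    rw [← hm1, half_log']
    have e : ex Q (fun x => G x ^ 2 / 2 * Real.log (G x ^ 2 / 2)) =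
        (1 / 2) * ex Q (fun x => G x ^ 2 * Real.log (G x ^ 2)) -
          (Real.log 2 / 2) * ex Q (fun x => G x ^ 2) := by
      unfold ex
      rw [Finset.mul_sum, Finset.mul_sum, ← Finset.sum_sub_distrib]
      refine Finset.sum_congr rfl fun x _ => ?_
      simp only [half_log]
      ring
    rw [e]
    ring
  have hF : (rent T w1 + rent T w0 - rent T Q) / 2 ≤ cost B T w1 + cost B T w0 - cost B T Q := by
    unfold F at kk
    rw [h.mass_one, hm0] at kk
    nlinarith
  rw [hrent, hfirst] at hF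
  linarith

end Pool.Agent.Grid.KK
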